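import Pool.Agent.Helper52.EK.Defs
set_option autoImplicit false
open Complex MeasureTheory Metric Set
open scoped Real ComplexConjugate

/-! Project EK, E2: facts on the Poisson kernel, and E2d (Jensen). -/

namespace Pool.Agent.Helper73.EK

open Pool.Agent.Helper52.EK

theorem norm_cis (α : ℝ) : ‖Complex.exp (α * I)‖ = 1 := Complex.norm_exp_ofReal_mul_I α

theorem ep_eq (t θ : ℝ) : ep t θ = (Real.exp t : ℂ) * Complex.exp (θ * I) := by
  unfold ep
  rw [Complex.exp_add, Complex.ofReal_exp]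

theorem norm_ep (t θ : ℝ) : ‖ep t θ‖ = Real.exp t := by
  rw [ep_eq, norm_mul, norm_cis, mul_one, Complex.norm_real, Real.norm_eq_abs,
    abs_of_pos (Real.exp_pos t)]

theorem norm_ep_lt {t : ℝ} (ht : t < 0) (θ : ℝ) : ‖ep t θ‖ < 1 := by
  rw [norm_ep]
  rw [← Real.exp_zero]
  exact Real.exp_lt_exp.2 ht

theorem Pk_pos {ζ z : ℂ} (hζ : ‖ζ‖ = 1) (hz : ‖z‖ < 1) : 0 < Pk ζ z := by
  unfold Pk
  have h1 : ζ - z ≠ 0 := by
    intro h
    rw [sub_eq_zero] at h
    rw [← h, hζ] at hz
    exact lt_irrefl _ hz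
  have h2 : 0 < ‖ζ - z‖ := norm_pos_iff.2 h1
  have h3 : ‖z‖ ^ 2 < 1 := by
    have := norm_nonneg z
    nlinarith
  exact div_pos (by linarith) (by positivity)

theorem sub_ne_zero_of {ζ z : ℂ} (hζ : ‖ζ‖ = 1) (hz : ‖z‖ < 1) : ζ - z ≠ 0 := by
  intro h
  rw [sub_eq_zero] at h
  rw [← h, hζ] at hz
  exact lt_irrefl _ hz

/-- The mean of the Poisson kernel over the boundary points. -/
theorem integral_Pk {z : ℂ} (hz : ‖z‖ < 1) :
    ∫ α in (0:ℝ)..(2 * π), Pk (Complex.exp (α * I)) z = 2 * π := by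
  have hf : DiffContOnCl ℂ (fun _ : ℂ => (1:ℂ)) (ball 0 1) := diffContOnCl_const
  have h1 := hf.circleAverage_poissonKernel_smul (w := z) (by simpa using hz)
  have h2 : ∀ θ : ℝ, (poissonKernel 0 z • fun _ : ℂ => (1:ℂ)) (circleMap 0 1 θ) =
      ((Pk (Complex.exp (θ * I)) z : ℝ) : ℂ) := by
    intro θ
    have h3 : circleMap 0 1 θ = Complex.exp (θ * I) := by simp [circleMap]
    rw [h3]
    simp only [Pi.smul_apply', poissonKernel, Pk, sub_zero, norm_cis, one_pow]
    simp
  rw [Real.circleAverage_def] at h1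
  simp_rw [h2] at h1
  rw [intervalIntegral.integral_ofReal] at h1
  have h4 : ((2 * π)⁻¹ * ∫ α in (0:ℝ)..(2 * π), Pk (Complex.exp (α * I)) z : ℝ) = 1 := by
    have h5 := congrArg Complex.re h1
    simpa using h5
  have hpi : (0:ℝ) < 2 * π := by positivity
  field_simp at h4
  exact h4

theorem norm_symm (t α θ : ℝ) : ‖Complex.exp (α * I) - ep t θ‖ = ‖Complex.exp (θ * I) - ep t α‖ := by
  have h1 : Complex.exp (α * I) - ep t θ =
      (Complex.exp (α * I) * Complex.exp (θ * I)) * conj (Complex.exp (θ * I) - ep t α) := by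
    have e1 : ∀ β : ℝ, conj (Complex.exp (β * I)) = (Complex.exp (β * I))⁻¹ := by
      intro β
      rw [← Complex.exp_conj, ← Complex.exp_neg]
      congr 1
      simp
    rw [ep_eq, ep_eq, map_sub, map_mul, e1, e1, Complex.conj_ofReal]
    have n1 := Complex.exp_ne_zero (α * I)
    have n2 := Complex.exp_ne_zero (θ * I)
    field_simp
  rw [h1, norm_mul, norm_mul, norm_cis, norm_cis, one_mul, one_mul, Complex.norm_conj]

/-- The symmetry of the Poisson kernel. -/
theorem Pk_symm (t α θ : ℝ) :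
    Pk (Complex.exp (α * I)) (ep t θ) = Pk (Complex.exp (θ * I)) (ep t α) := by
  unfold Pk
  rw [norm_symm, norm_ep, norm_ep]

theorem continuous_ep : Continuous fun p : ℝ × ℝ => ep p.1 p.2 := by
  unfold ep
  fun_prop

/-- The Poisson kernel is continuous. -/
theorem continuous_Pk {t : ℝ} (ht : t < 0) :
    Continuous fun p : ℝ × ℝ => Pk (Complex.exp (p.1 * I)) (ep t p.2) := by
  unfold Pk
  have h1 : Continuous fun p : ℝ × ℝ => ep t p.2 := by
    unfold ep
    fun_prop
  refine Continuous.div (by fun_prop) (by fun_prop) fun p => ?_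
  have h2 := sub_ne_zero_of (norm_cis p.1) (norm_ep_lt ht p.2)
  positivity

theorem Pk_per (ζ : ℂ) (t : ℝ) : Function.Periodic (fun θ : ℝ => Pk ζ (ep t θ)) (2 * π) := by
  intro θ
  have h1 : ep t (θ + 2 * π) = ep t θ := by
    unfold ep
    push_cast
    rw [add_mul, ← add_assoc]
    exact Complex.exp_periodic _
  simp only [h1]

/-- The mean of the Poisson kernel over the circle of radius `e^t`. -/
theorem integral_Pk' {t : ℝ} (ht : t < 0) (α : ℝ) :
    ∫ θ in (-π)..π, Pk (Complex.exp (α * I)) (ep t θ) = 2 * π := by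
  have h1 := (Pk_per (Complex.exp (α * I)) t).intervalIntegral_add_eq (-π) 0
  rw [show -π + 2 * π = π by ring, zero_add] at h1
  rw [h1]
  refine Eq.trans ?_ (integral_Pk (norm_ep_lt ht α))
  exact intervalIntegral.integral_congr fun θ _ => Pk_symm t α θ

end Pool.Agent.Helper73.EK
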