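import Pool.Agent.Helper73.EK.DefsE2
import Pool.Agent.Helper73.EK.Pois
set_option autoImplicit false
open Complex MeasureTheory Metric Set
open scoped Real ComplexConjugate

/-! Project EK, E2d (Jensen). -/

namespace Pool.Agent.Helper73.EK

open Pool.Agent.Helper52.EK

variable {ρ : ℝ → ℝ}

theorem continuous_Pk_one (z : ℂ) (hz : ‖z‖ < 1) :
    Continuous fun α : ℝ => Pk (Complex.exp (α * I)) z := by
  unfold Pk
  refine Continuous.div (by fun_prop) (by fun_prop) fun α => ?_
  have h2 := sub_ne_zero_of (norm_cis α) hz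
  positivity

theorem two_pi_pos' : (0:ℝ) < 2 * π := by positivity

theorem uu_pos (h : Dens ρ) {t : ℝ} (ht : t < 0) (θ : ℝ) : 0 < uu ρ t θ := by
  unfold uu
  have h1 : 0 < ∫ α in (0:ℝ)..(2 * π), Pk (Complex.exp (α * I)) (ep t θ) * ρ α := by
    refine intervalIntegral.intervalIntegral_pos_of_pos ?_ (fun α => ?_) two_pi_pos'
    · exact ((continuous_Pk_one _ (norm_ep_lt ht θ)).mul h.cont).intervalIntegrable _ _
    · exact mul_pos (Pk_pos (norm_cis α) (norm_ep_lt ht θ)) (h.pos α)
  exact mul_pos (inv_pos.2 two_pi_pos') h1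

theorem continuous_uu (h : Dens ρ) {t : ℝ} (ht : t < 0) : Continuous (uu ρ t) := by
  unfold uu
  refine continuous_const.mul ?_
  refine intervalIntegral.continuous_parametric_intervalIntegral_of_continuous' ?_ _ _
  have h1 : Continuous fun q : ℝ × ℝ => (q.2, q.1) := by fun_prop
  exact ((continuous_Pk ht).comp h1).mul (h.cont.comp continuous_snd)

/-- The tangent line of `x log x`. -/
theorem tangent {u x : ℝ} (hu : 0 < u) (hx : 0 < x) :
    u * Real.log u + (1 + Real.log u) * (x - u) ≤ x * Real.log x := by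
  have h1 : Real.log (u / x) ≤ u / x - 1 := Real.log_le_sub_one_of_pos (div_pos hu hx)
  rw [Real.log_div hu.ne' hx.ne'] at h1
  have h2 : x * (Real.log u - Real.log x) ≤ x * (u / x - 1) :=
    mul_le_mul_of_nonneg_left h1 hx.le
  have h3 : x * (u / x - 1) = u - x := by field_simp
  rw [h3] at h2
  nlinarith

theorem uu_log_le (h : Dens ρ) {t : ℝ} (ht : t < 0) (θ : ℝ) :
    uu ρ t θ * Real.log (uu ρ t θ) ≤ (2 * π)⁻¹ * ∫ α in (0:ℝ)..(2 * π),
      Pk (Complex.exp (α * I)) (ep t θ) * (ρ α * Real.log (ρ α)) := by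
  have hu := uu_pos h ht θ
  have hz := norm_ep_lt ht θ
  have cP := continuous_Pk_one _ hz
  have cR : Continuous fun α => ρ α * Real.log (ρ α) :=
    h.cont.mul (h.cont.log fun α => (h.pos α).ne')
  set u := uu ρ t θ with hudef
  have h1 : ∫ α in (0:ℝ)..(2 * π), Pk (Complex.exp (α * I)) (ep t θ) *
      (u * Real.log u + (1 + Real.log u) * (ρ α - u)) ≤
      ∫ α in (0:ℝ)..(2 * π), Pk (Complex.exp (α * I)) (ep t θ) * (ρ α * Real.log (ρ α)) := by
    refine intervalIntegral.integral_mono_on two_pi_pos'.le ?_ ?_ fun α _ => ?_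
    · refine Continuous.intervalIntegrable ?_ _ _
      exact cP.mul (continuous_const.add (continuous_const.mul (h.cont.sub continuous_const)))
    · exact (cP.mul cR).intervalIntegrable _ _
    · exact mul_le_mul_of_nonneg_left (tangent hu (h.pos α)) (Pk_pos (norm_cis α) hz).le
  have h2 : ∫ α in (0:ℝ)..(2 * π), Pk (Complex.exp (α * I)) (ep t θ) *
      (u * Real.log u + (1 + Real.log u) * (ρ α - u)) = (2 * π) * (u * Real.log u) := by
    have e1 : ∀ α : ℝ, Pk (Complex.exp (α * I)) (ep t θ) *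
        (u * Real.log u + (1 + Real.log u) * (ρ α - u)) =
        (u * Real.log u - (1 + Real.log u) * u) * Pk (Complex.exp (α * I)) (ep t θ) +
          (1 + Real.log u) * (Pk (Complex.exp (α * I)) (ep t θ) * ρ α) := fun α => by ring
    simp_rw [e1]
    rw [intervalIntegral.integral_add, intervalIntegral.integral_const_mul,
      intervalIntegral.integral_const_mul, integral_Pk hz]
    · have e2 : ∫ α in (0:ℝ)..(2 * π), Pk (Complex.exp (α * I)) (ep t θ) * ρ α =
          2 * π * u := by
        rw [hudef]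
        unfold uu
        rw [← mul_assoc, mul_inv_cancel₀ two_pi_pos'.ne', one_mul]
      rw [e2]
      ring
    · exact (continuous_const.mul cP).intervalIntegrable _ _
    · exact (continuous_const.mul (cP.mul h.cont)).intervalIntegrable _ _
  rw [h2] at h1
  have h3 := mul_le_mul_of_nonneg_left h1 (inv_pos.2 two_pi_pos').le
  rwa [← mul_assoc, inv_mul_cancel₀ two_pi_pos'.ne', one_mul] at h3

/-- E2d (Jensen) -/
theorem E2d (h : Dens ρ) {t : ℝ} (ht : t < 0) :
    AA ρ t ≤ (2 * π)⁻¹ * ∫ α in (0:ℝ)..(2 * π), ρ α * Real.log (ρ α) := by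
  have cR : Continuous fun α => ρ α * Real.log (ρ α) :=
    h.cont.mul (h.cont.log fun α => (h.pos α).ne')
  have cu := continuous_uu h ht
  have hpi : -π ≤ π := by linarith [Real.pi_pos]
  have cF : Continuous fun q : ℝ × ℝ =>
      Pk (Complex.exp (q.2 * I)) (ep t q.1) * (ρ q.2 * Real.log (ρ q.2)) := by
    have h1 : Continuous fun q : ℝ × ℝ => (q.2, q.1) := by fun_prop
    exact ((continuous_Pk ht).comp h1).mul (cR.comp continuous_snd)
  have h1 : ∫ θ in (-π)..π, uu ρ t θ * Real.log (uu ρ t θ) ≤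
      ∫ θ in (-π)..π, (2 * π)⁻¹ * ∫ α in (0:ℝ)..(2 * π),
        Pk (Complex.exp (α * I)) (ep t θ) * (ρ α * Real.log (ρ α)) := by
    refine intervalIntegral.integral_mono_on hpi ?_ ?_ fun θ _ => uu_log_le h ht θ
    · exact (cu.mul (cu.log fun θ => (uu_pos h ht θ).ne')).intervalIntegrable _ _
    · refine Continuous.intervalIntegrable ?_ _ _
      refine continuous_const.mul ?_
      exact intervalIntegral.continuous_parametric_intervalIntegral_of_continuous' cF _ _
  have h2 : ∫ θ in (-π)..π, ∫ α in (0:ℝ)..(2 * π),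
        Pk (Complex.exp (α * I)) (ep t θ) * (ρ α * Real.log (ρ α)) =
      ∫ α in (0:ℝ)..(2 * π), ∫ θ in (-π)..π,
        Pk (Complex.exp (α * I)) (ep t θ) * (ρ α * Real.log (ρ α)) := by
    refine intervalIntegral_intervalIntegral_swap ?_
    refine (cF.continuousOn.integrableOn_compact (K := uIcc (-π) π ×ˢ uIcc 0 (2 * π)) ?_).mono_set
      (prod_mono uIoc_subset_uIcc uIoc_subset_uIcc)
    exact isCompact_uIcc.prod isCompact_uIcc
  have h3 : ∀ α : ℝ, ∫ θ in (-π)..π,
      Pk (Complex.exp (α * I)) (ep t θ) * (ρ α * Real.log (ρ α)) =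
      2 * π * (ρ α * Real.log (ρ α)) := by
    intro α
    rw [intervalIntegral.integral_mul_const, integral_Pk' ht]
  unfold AA
  rw [intervalIntegral.integral_const_mul, h2] at h1
  simp_rw [h3] at h1
  rw [intervalIntegral.integral_const_mul, ← mul_assoc, inv_mul_cancel₀ two_pi_pos'.ne',
    one_mul] at h1
  exact mul_le_mul_of_nonneg_left h1 (inv_pos.2 two_pi_pos').le

end Pool.Agent.Helper73.EK
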