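import Mathlib

set_option autoImplicit false

namespace Pool.Agent.Helper73.EK

open Finset

lemma exists_residue {p : ℕ} (hp : p.Prime) (hp2 : p ≠ 2) (e : ℤ) (he : e = 1 ∨ e = -1) :
    ∃ a : ℕ, jacobiSym (a : ℤ) p = e := by
  have : Fact p.Prime := ⟨hp⟩
  rcases he with rfl | rfl
  · exact ⟨1, by simpa using jacobiSym.one_left p⟩
  · obtain ⟨a, ha⟩ := FiniteField.exists_nonsquare (F := ZMod p) (by rw [ZMod.ringChar_zmod_n]; exact hp2)
    refine ⟨a.val, ?_⟩
    rw [← jacobiSym.legendreSym.to_jacobiSym, legendreSym.eq_neg_one_iff]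
    simpa using ha

/-- A residue class prescribing the Legendre symbols of all small primes. -/
theorem exists_class (e : ℕ → ℤ) (he : ∀ p, e p = 1 ∨ e p = -1) (y : ℕ) (hy : 2 ≤ y) :
    ∃ b : ℕ, Nat.Coprime b (4 * primorial y) ∧ ∀ q : ℕ, q.Prime →
      q % (4 * primorial y) = b % (4 * primorial y) → q % 4 = 1 ∧
      ∀ p ≤ y, p.Prime → jacobiSym (p : ℤ) q = e p := by
  classical
  set T := (range (y + 1)).filter Nat.Prime with hT
  have hres : ∀ p, ∃ a : ℕ, p.Prime → p ≠ 2 → jacobiSym (a : ℤ) p = e p := by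
    intro p
    by_cases hp : p.Prime
    · by_cases hp2 : p = 2
      · exact ⟨0, fun _ h => absurd hp2 h⟩
      · obtain ⟨a, ha⟩ := exists_residue hp hp2 (e p) (he p)
        exact ⟨a, fun _ _ => ha⟩
    · exact ⟨0, fun h _ => absurd h hp⟩
  choose r hr using hres
  set m : ℕ → ℕ := fun p => if p = 2 then 8 else p with hm
  set a : ℕ → ℕ := fun p => if p = 2 then (if e 2 = 1 then 1 else 5) else r p with ha
  have hm0 : ∀ p ∈ T, m p ≠ 0 := by
    intro p hp
    rw [hT, mem_filter] at hp
    simp only [hm]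
    split_ifs
    · norm_num
    · exact hp.2.ne_zero
  have hpair : Set.Pairwise (T : Set ℕ) (Function.onFun Nat.Coprime m) := by
    intro p hp p' hp' hne
    have h1 : p.Prime := by
      have := mem_coe.1 hp; rw [hT, mem_filter] at this; exact this.2
    have h2 : p'.Prime := by
      have := mem_coe.1 hp'; rw [hT, mem_filter] at this; exact this.2
    have hc : Nat.Coprime p p' := (Nat.coprime_primes h1 h2).2 hne
    show Nat.Coprime (m p) (m p')
    simp only [hm]
    split_ifs with h3 h4 h4
    · exact absurd (h3.trans h4.symm) hne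
    · rw [h3] at hc
      exact (Nat.Coprime.pow_left 3 hc)
    · rw [h4] at hc
      exact (Nat.Coprime.pow_right 3 hc)
    · exact hc
  obtain ⟨b, hb⟩ := Nat.chineseRemainderOfFinset a m T hm0 hpair
  have h2T : 2 ∈ T := by rw [hT, mem_filter, mem_range]; exact ⟨by omega, Nat.prime_two⟩
  have hb8 : b ≡ (if e 2 = 1 then 1 else 5) [MOD 8] := by
    have := hb 2 h2T
    simpa [hm, ha] using this
  have hbp : ∀ p ∈ T, p ≠ 2 → b ≡ r p [MOD p] := by
    intro p hp hp2
    have := hb p hp
    simpa [hm, ha, hp2] using this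
  have hbmod4 : b % 4 = 1 := by
    have h8 : b % 8 = (if e 2 = 1 then 1 else 5) % 8 := hb8
    split_ifs at h8 <;> omega
  have hprimdvd : ∀ p ∈ T, p ∣ primorial y := by
    intro p hp
    rw [primorial]
    exact dvd_prod_of_mem _ hp
  have hcopT : ∀ p ∈ T, Nat.Coprime b p := by
    intro p hp
    have hpp : p.Prime := by rw [hT, mem_filter] at hp; exact hp.2
    by_cases hp2 : p = 2
    · rw [hp2, Nat.coprime_two_right, Nat.odd_iff]; omega
    · have : Fact p.Prime := ⟨hpp⟩
      have h1 := hr p hpp hp2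
      have h2 : jacobiSym (b : ℤ) p = e p := by
        rw [← h1]
        apply jacobiSym.mod_left'
        exact_mod_cast (hbp p hp hp2)
      have h3 : jacobiSym (b : ℤ) p ≠ 0 := by
        rw [h2]; rcases he p with h | h <;> rw [h] <;> norm_num
      by_contra hcon
      apply h3
      rw [jacobiSym.eq_zero_iff_not_coprime, Int.gcd_natCast_natCast]
      exact hcon
  refine ⟨b, ?_, ?_⟩
  · apply Nat.Coprime.mul_right
    · have : Nat.Coprime b (2 ^ 2) := Nat.Coprime.pow_right 2 (hcopT 2 h2T)
      simpa using this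
    · rw [primorial]
      exact Nat.Coprime.prod_right fun p hp => hcopT p hp
  · intro q hq hqb
    have hqb' : q ≡ b [MOD 4 * primorial y] := hqb
    have h8 : 8 ∣ 4 * primorial y := by
      have := hprimdvd 2 h2T
      obtain ⟨c, hc⟩ := this
      exact ⟨c, by rw [hc]; ring⟩
    have hq8 : q ≡ (if e 2 = 1 then 1 else 5) [MOD 8] := (hqb'.of_dvd h8).trans hb8
    have hq8' : q % 8 = (if e 2 = 1 then 1 else 5) % 8 := hq8
    have hq4 : q % 4 = 1 := by
      split_ifs at hq8' <;> omega
    have hqodd : Odd q := by rw [Nat.odd_iff]; omega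
    refine ⟨hq4, fun p hpy hp => ?_⟩
    have hpT : p ∈ T := by rw [hT, mem_filter, mem_range]; exact ⟨by omega, hp⟩
    by_cases hp2 : p = 2
    · subst hp2
      have h1 := jacobiSym.at_two hqodd
      push_cast
      rw [h1]
      rcases he 2 with h2 | h2
      · rw [h2] at hq8' ⊢
        have h3 : ((q : ℕ) : ZMod 8) = ((1 : ℕ) : ZMod 8) := by
          rw [ZMod.natCast_eq_natCast_iff]
          exact (by simpa using hq8' : q % 8 = 1 % 8)
        rw [h3]; decide
      · rw [h2] at hq8' ⊢
        have h3 : ((q : ℕ) : ZMod 8) = ((5 : ℕ) : ZMod 8) := by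
          rw [ZMod.natCast_eq_natCast_iff]
          exact (by simpa using hq8' : q % 8 = 5 % 8)
        rw [h3]; decide
    · have hpodd : Odd p := hp.odd_of_ne_two hp2
      have h1 : jacobiSym (p : ℤ) q = jacobiSym (q : ℤ) p :=
        (jacobiSym.quadratic_reciprocity_one_mod_four hq4 hpodd).symm
      rw [h1, ← hr p hp hp2]
      apply jacobiSym.mod_left'
      have h2 : q ≡ r p [MOD p] :=
        (hqb'.of_dvd ((hprimdvd p hpT).trans (Dvd.intro_left _ rfl))).trans (hbp p hpT hp2)
      exact_mod_cast h2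

end Pool.Agent.Helper73.EK
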