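import Mathlib

/-!
# Euler–Kronecker constants of divisor sums: definitions
-/

set_option autoImplicit false

namespace Pool.Agent.Helper73.EK

open Filter Topology

/-- The set `S = {n ≥ 1 : q ∤ σ_k(n)}`, where `σ_k(n) = ∑_{d ∣ n} d^k`. -/
def sigmaSet (k q : ℕ) : Set ℕ := {n : ℕ | 1 ≤ n ∧ ¬ q ∣ ∑ d ∈ n.divisors, d ^ k}

open Classical in
/-- The Dirichlet series `L(s) = ∑_{n ∈ S} n^{-s}` for real `s > 1`. -/
noncomputable def dirSeries (k q : ℕ) (s : ℝ) : ℝ :=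
  ∑' n : ℕ, if n ∈ sigmaSet k q then (n : ℝ) ^ (-s) else 0

/-- The number `h = (q - 1) / gcd(k, q - 1)`. -/
def hNum (k q : ℕ) : ℕ := (q - 1) / Nat.gcd k (q - 1)

/-- `(k, q)` is admissible: `q` is an odd prime, `k ≥ 1` and `h` is even. -/
def Admissible (k q : ℕ) : Prop := q.Prime ∧ q ≠ 2 ∧ 1 ≤ k ∧ Even (hNum k q)

/-- `g` is the Euler–Kronecker constant `γ_{k,q}`: the limit, as `s` tends to `1` from the right,
of `L'(s) / L(s) + (h - 1) / (h (s - 1))`. -/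
def IsEKConstant (k q : ℕ) (g : ℝ) : Prop :=
  Tendsto (fun s : ℝ => deriv (dirSeries k q) s / dirSeries k q s
    + ((hNum k q : ℝ) - 1) / ((hNum k q : ℝ) * (s - 1))) (𝓝[>] 1) (𝓝 g)

end Pool.Agent.Helper73.EK
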