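import Pool.Agent.Helper52.EK.Defs
set_option autoImplicit false
open Complex MeasureTheory Metric Set
open scoped Real ComplexConjugate

/-! Project EK, E2 (entropy): the common definitions, copied from the specification. -/

namespace Pool.Agent.Helper52.EK

noncomputable def uu (ρ : ℝ → ℝ) (t θ : ℝ) : ℝ :=
  (2 * π)⁻¹ * ∫ α in (0:ℝ)..(2 * π), Pk (Complex.exp (α * I)) (ep t θ) * ρ α

noncomputable def AA (ρ : ℝ → ℝ) (t : ℝ) : ℝ :=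
  (2 * π)⁻¹ * ∫ θ in (-π)..π, uu ρ t θ * Real.log (uu ρ t θ)

/-- a probability density on the circle -/
structure Dens (ρ : ℝ → ℝ) : Prop where
  cont : Continuous ρ
  pos : ∀ α, 0 < ρ α
  per : Function.Periodic ρ (2 * π)
  one : ∫ α in (0:ℝ)..(2 * π), ρ α = 2 * π

noncomputable def ut (ρ : ℝ → ℝ) (t θ : ℝ) : ℝ := deriv (fun t' => uu ρ t' θ) t
noncomputable def uth (ρ : ℝ → ℝ) (t θ : ℝ) : ℝ := deriv (fun θ' => uu ρ t θ') θ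
noncomputable def A1 (ρ : ℝ → ℝ) (t : ℝ) : ℝ :=
  (2 * π)⁻¹ * ∫ θ in (-π)..π, (1 + Real.log (uu ρ t θ)) * ut ρ t θ
noncomputable def A2 (ρ : ℝ → ℝ) (t : ℝ) : ℝ :=
  (2 * π)⁻¹ * ∫ θ in (-π)..π, (ut ρ t θ ^ 2 + uth ρ t θ ^ 2) / uu ρ t θ

/-- the double average of the loss at height t -/
noncomputable def kk (ρ : ℝ → ℝ) (w : ℂ → ℂ) (t : ℝ) : ℝ :=
  (2 * π)⁻¹ * ∫ θ in (-π)..π, (2 * π)⁻¹ * ∫ α in (0:ℝ)..(2 * π),
    ρ α * (Pk (Complex.exp (α * I)) (ep t θ) *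
      ‖ee (Complex.exp (α * I)) (ep t θ) - w (ep t θ)‖ ^ 2 / Real.sinh t ^ 2)

end Pool.Agent.Helper52.EK
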