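import Mathlib

set_option autoImplicit false

namespace Pool.Agent.Helper73.EK

open Finset

open Classical in
/-- The integers in `(1, N]` all of whose prime factors exceed `y`. -/
noncomputable def rough (y N : ℕ) : Finset ℕ := (Ioc 1 N).filter (fun n => ∀ p, p.Prime → p ∣ n → y < p)

lemma mem_rough {y N n : ℕ} : n ∈ rough y N ↔ (1 < n ∧ n ≤ N) ∧ ∀ p, p.Prime → p ∣ n → y < p := by
  simp [rough]

lemma lt_of_mem_rough {y N n : ℕ} (h : n ∈ rough y N) : y < n := by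
  obtain ⟨⟨h1, _⟩, h2⟩ := mem_rough.1 h
  obtain ⟨p, hp, hpn⟩ := Nat.exists_prime_and_dvd (show n ≠ 1 by omega)
  exact lt_of_lt_of_le (h2 p hp hpn) (Nat.le_of_dvd (by omega) hpn)

lemma exists_param {n₁ n₂ : ℕ} (h₁ : 0 < n₁) (h₂ : 0 < n₂) (hsq : IsSquare (n₁ * n₂)) :
    ∃ g u v : ℕ, n₁ = g * u ^ 2 ∧ n₂ = g * v ^ 2 := by
  obtain ⟨g, hg, hα, hβ, hcop, rfl, rfl⟩ : ∃ g : ℕ, 0 < g ∧ ∃ α β : ℕ, Nat.Coprime α β ∧ n₁ = g * α ∧ n₂ = g * β := by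
    obtain ⟨α, β, hc, ha, hb⟩ := Nat.exists_coprime n₁ n₂
    refine ⟨Nat.gcd n₁ n₂, Nat.gcd_pos_of_pos_left _ h₁, α, β, hc, ?_, ?_⟩
    · rw [mul_comm]; exact ha
    · rw [mul_comm]; exact hb
  obtain ⟨m, hm⟩ := hsq
  have h3 : g ^ 2 * (hα * hβ) = m ^ 2 := by rw [sq m, ← hm]; ring
  have hgm : g ∣ m := by
    have : g ^ 2 ∣ m ^ 2 := ⟨_, h3.symm⟩
    exact (Nat.pow_dvd_pow_iff two_ne_zero).1 this
  obtain ⟨c, rfl⟩ := hgm
  have h4 : hα * hβ = c ^ 2 := by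
    have : g ^ 2 * (hα * hβ) = g ^ 2 * c ^ 2 := by rw [h3]; ring
    exact Nat.eq_of_mul_eq_mul_left (by positivity) this
  obtain ⟨u, hu⟩ := exists_eq_pow_of_mul_eq_pow (Nat.isUnit_iff.2 hcop) h4
  obtain ⟨v, hv⟩ := exists_eq_pow_of_mul_eq_pow (Nat.isUnit_iff.2 hcop.symm) (by rw [mul_comm]; exact h4)
  exact ⟨g, u, v, by rw [hu], by rw [hv]⟩

lemma one_add_log_le {n : ℕ} (hn : 1 ≤ n) : 1 + Real.log n ≤ 17 * (n : ℝ) ^ (1 / 16 : ℝ) := by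
  have h1 : Real.log n ≤ (n : ℝ) ^ (1 / 16 : ℝ) / (1 / 16) :=
    Real.log_le_rpow_div (by positivity) (by norm_num)
  have h2 : (1 : ℝ) ≤ (n : ℝ) ^ (1 / 16 : ℝ) :=
    Real.one_le_rpow (by exact_mod_cast hn) (by norm_num)
  linarith

/-- The diagonal contribution is small. -/
theorem diag_bound : ∃ K : ℝ, 0 < K ∧ ∀ y N : ℕ, 1 ≤ y →
    (∑ n₁ ∈ rough y N, ∑ n₂ ∈ rough y N, if IsSquare (n₁ * n₂) then
      ((1 + Real.log n₁) / n₁) * ((1 + Real.log n₂) / n₂) else 0) ≤ K * (y : ℝ) ^ (-(1 / 4) : ℝ) := by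
  classical
  have hsum : Summable (fun n : ℕ => (n : ℝ) ^ (-(13 / 8) : ℝ)) :=
    Real.summable_nat_rpow.2 (by norm_num)
  set Z : ℝ := ∑' n : ℕ, (n : ℝ) ^ (-(13 / 8) : ℝ) with hZ
  have hZ0 : 0 ≤ Z := tsum_nonneg fun n => by positivity
  refine ⟨289 * Z ^ 3 + 1, by positivity, fun y N hy => ?_⟩
  -- reduce to a sum over pairs
  have e1 : (∑ n₁ ∈ rough y N, ∑ n₂ ∈ rough y N, if IsSquare (n₁ * n₂) then
      ((1 + Real.log n₁) / n₁) * ((1 + Real.log n₂) / n₂) else 0)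
      = ∑ x ∈ (rough y N ×ˢ rough y N).filter (fun x => IsSquare (x.1 * x.2)),
        ((1 + Real.log x.1) / x.1) * ((1 + Real.log x.2) / x.2) := by
    rw [sum_filter, sum_product]
  rw [e1]
  set P := (rough y N ×ˢ rough y N).filter (fun x => IsSquare (x.1 * x.2)) with hP
  have hex : ∀ x : ℕ × ℕ, x ∈ P → ∃ t : ℕ × ℕ × ℕ, x.1 = t.1 * t.2.1 ^ 2 ∧ x.2 = t.1 * t.2.2 ^ 2 := by
    intro x hx
    rw [hP, mem_filter, mem_product] at hx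
    have h1 := lt_of_mem_rough hx.1.1
    have h2 := lt_of_mem_rough hx.1.2
    obtain ⟨g, u, v, ha, hb⟩ := exists_param (by omega) (by omega) hx.2
    exact ⟨(g, u, v), ha, hb⟩
  choose! σ hσ1 hσ2 using hex
  have hinj : Set.InjOn σ P := by
    intro x hx x' hx' h
    apply Prod.ext
    · rw [hσ1 x hx, hσ1 x' hx', h]
    · rw [hσ2 x hx, hσ2 x' hx', h]
  -- pointwise bound
  have hpt : ∀ x ∈ P, ((1 + Real.log x.1) / x.1) * ((1 + Real.log x.2) / x.2)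
      ≤ 289 * (y : ℝ) ^ (-(1 / 4) : ℝ) * (((σ x).1 : ℝ) ^ (-(13 / 8) : ℝ) *
        (((σ x).2.1 : ℝ) ^ (-(13 / 8) : ℝ) * ((σ x).2.2 : ℝ) ^ (-(13 / 8) : ℝ))) := by
    intro x hx
    have ha := hσ1 x hx
    have hb := hσ2 x hx
    rw [hP, mem_filter, mem_product] at hx
    have h1 := lt_of_mem_rough hx.1.1
    have h2 := lt_of_mem_rough hx.1.2
    set g := (σ x).1
    set u := (σ x).2.1
    set v := (σ x).2.2
    have hg : 0 < g := by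
      rcases Nat.eq_zero_or_pos g with h | h
      · rw [h] at ha; omega
      · exact h
    have hu : 0 < u := by
      rcases Nat.eq_zero_or_pos u with h | h
      · rw [h] at ha; omega
      · exact h
    have hv : 0 < v := by
      rcases Nat.eq_zero_or_pos v with h | h
      · rw [h] at hb; omega
      · exact h
    have hx1 : (0 : ℝ) < x.1 := by exact_mod_cast (show 0 < x.1 by omega)
    have hx2 : (0 : ℝ) < x.2 := by exact_mod_cast (show 0 < x.2 by omega)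
    have hgr : (0 : ℝ) < g := by exact_mod_cast hg
    have hur : (0 : ℝ) < u := by exact_mod_cast hu
    have hvr : (0 : ℝ) < v := by exact_mod_cast hv
    have l1 := one_add_log_le (show 1 ≤ x.1 by omega)
    have l2 := one_add_log_le (show 1 ≤ x.2 by omega)
    have b1 : (1 + Real.log x.1) / x.1 ≤ 17 * (x.1 : ℝ) ^ (-(15 / 16) : ℝ) := by
      rw [div_le_iff₀ hx1, mul_assoc, ← Real.rpow_add_one hx1.ne']
      norm_num at l1 ⊢
      exact l1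
    have b2 : (1 + Real.log x.2) / x.2 ≤ 17 * (x.2 : ℝ) ^ (-(15 / 16) : ℝ) := by
      rw [div_le_iff₀ hx2, mul_assoc, ← Real.rpow_add_one hx2.ne']
      norm_num at l2 ⊢
      exact l2
    have n1 : 0 ≤ (1 + Real.log x.1) / x.1 := by
      have : 0 ≤ Real.log x.1 := Real.log_natCast_nonneg _
      positivity
    have n2 : 0 ≤ (1 + Real.log x.2) / x.2 := by
      have : 0 ≤ Real.log x.2 := Real.log_natCast_nonneg _
      positivity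
    have b3 : ((1 + Real.log x.1) / x.1) * ((1 + Real.log x.2) / x.2)
        ≤ 289 * ((x.1 : ℝ) * x.2) ^ (-(15 / 16) : ℝ) := by
      calc _ ≤ (17 * (x.1 : ℝ) ^ (-(15 / 16) : ℝ)) * (17 * (x.2 : ℝ) ^ (-(15 / 16) : ℝ)) :=
            mul_le_mul b1 b2 n2 (by positivity)
        _ = _ := by rw [Real.mul_rpow hx1.le hx2.le]; ring
    set m : ℝ := (g : ℝ) * u * v with hm
    have hm0 : 0 < m := by positivity
    have e2 : (x.1 : ℝ) * x.2 = m ^ (2 : ℝ) := by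
      rw [ha, hb, hm]; push_cast
      rw [Real.rpow_two]; ring
    have hym : (y : ℝ) ≤ m := by
      have h3 : (y : ℝ) ^ 2 ≤ m ^ 2 := by
        have h4 : (y : ℝ) ≤ x.1 := by exact_mod_cast h1.le
        have h5 : (y : ℝ) ≤ x.2 := by exact_mod_cast h2.le
        have h6 : m ^ 2 = (x.1 : ℝ) * x.2 := by rw [e2, Real.rpow_two]
        rw [h6, sq]
        exact mul_le_mul h4 h5 (by positivity) hx1.le
      exact (sq_le_sq₀ (by positivity) hm0.le).1 h3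
    have hy0 : (0 : ℝ) < y := by exact_mod_cast hy
    have e3 : ((x.1 : ℝ) * x.2) ^ (-(15 / 16) : ℝ) = m ^ (-(1 / 4) : ℝ) * m ^ (-(13 / 8) : ℝ) := by
      rw [e2, ← Real.rpow_mul hm0.le, ← Real.rpow_add hm0]
      norm_num
    have b4 : m ^ (-(1 / 4) : ℝ) ≤ (y : ℝ) ^ (-(1 / 4) : ℝ) :=
      Real.rpow_le_rpow_of_nonpos hy0 hym (by norm_num)
    have e4 : m ^ (-(13 / 8) : ℝ) = (g : ℝ) ^ (-(13 / 8) : ℝ) *
        ((u : ℝ) ^ (-(13 / 8) : ℝ) * (v : ℝ) ^ (-(13 / 8) : ℝ)) := by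
      rw [hm, Real.mul_rpow (by positivity) hvr.le, Real.mul_rpow hgr.le hur.le, mul_assoc]
    rw [e3] at b3
    rw [← e4]
    calc _ ≤ 289 * (m ^ (-(1 / 4) : ℝ) * m ^ (-(13 / 8) : ℝ)) := b3
      _ ≤ 289 * ((y : ℝ) ^ (-(1 / 4) : ℝ) * m ^ (-(13 / 8) : ℝ)) := by
        apply mul_le_mul_of_nonneg_left _ (by norm_num)
        exact mul_le_mul_of_nonneg_right b4 (by positivity)
      _ = _ := by ring
  -- sum over the image
  have h5 : ∑ x ∈ P, (((σ x).1 : ℝ) ^ (-(13 / 8) : ℝ) *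
        (((σ x).2.1 : ℝ) ^ (-(13 / 8) : ℝ) * ((σ x).2.2 : ℝ) ^ (-(13 / 8) : ℝ))) ≤ Z ^ 3 := by
    have hs2 : Summable (fun t : ℕ × ℕ => (t.1 : ℝ) ^ (-(13 / 8) : ℝ) * (t.2 : ℝ) ^ (-(13 / 8) : ℝ)) :=
      Summable.mul_of_nonneg hsum hsum (fun _ => by positivity) (fun _ => by positivity)
    have hs3 : Summable (fun t : ℕ × ℕ × ℕ => (t.1 : ℝ) ^ (-(13 / 8) : ℝ) *
        ((t.2.1 : ℝ) ^ (-(13 / 8) : ℝ) * (t.2.2 : ℝ) ^ (-(13 / 8) : ℝ))) :=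
      Summable.mul_of_nonneg hsum hs2 (fun _ => by positivity) (fun _ => by positivity)
    have e5 : ∑ x ∈ P, (((σ x).1 : ℝ) ^ (-(13 / 8) : ℝ) *
        (((σ x).2.1 : ℝ) ^ (-(13 / 8) : ℝ) * ((σ x).2.2 : ℝ) ^ (-(13 / 8) : ℝ)))
        = ∑ t ∈ P.image σ, ((t.1 : ℝ) ^ (-(13 / 8) : ℝ) *
        ((t.2.1 : ℝ) ^ (-(13 / 8) : ℝ) * (t.2.2 : ℝ) ^ (-(13 / 8) : ℝ))) := by
      rw [sum_image hinj]
    rw [e5]
    refine (hs3.sum_le_tsum _ (fun _ _ => by positivity)).trans (le_of_eq ?_)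
    rw [← hsum.tsum_mul_tsum hs2 hs3, ← hsum.tsum_mul_tsum hsum hs2, ← hZ]
    ring
  calc _ ≤ ∑ x ∈ P, 289 * (y : ℝ) ^ (-(1 / 4) : ℝ) * (((σ x).1 : ℝ) ^ (-(13 / 8) : ℝ) *
        (((σ x).2.1 : ℝ) ^ (-(13 / 8) : ℝ) * ((σ x).2.2 : ℝ) ^ (-(13 / 8) : ℝ))) := sum_le_sum hpt
    _ = 289 * (y : ℝ) ^ (-(1 / 4) : ℝ) * ∑ x ∈ P, (((σ x).1 : ℝ) ^ (-(13 / 8) : ℝ) *
        (((σ x).2.1 : ℝ) ^ (-(13 / 8) : ℝ) * ((σ x).2.2 : ℝ) ^ (-(13 / 8) : ℝ))) := by rw [mul_sum]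
    _ ≤ 289 * (y : ℝ) ^ (-(1 / 4) : ℝ) * Z ^ 3 := mul_le_mul_of_nonneg_left h5 (by positivity)
    _ ≤ _ := by
      have : 0 ≤ (y : ℝ) ^ (-(1 / 4) : ℝ) := by positivity
      nlinarith

end Pool.Agent.Helper73.EK
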