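import Mathlib

set_option autoImplicit false

namespace Pool.Agent.Helper73.EK

open Finset Filter

lemma two_pow_le {j : ℕ} : (2 : ℝ) ^ (4 * (j / 100)) * 2 ^ (3 * j / 4) ≤ ((2 : ℝ) ^ (-(21 / 100) : ℝ)) ^ j * 2 ^ j := by
  have h2 : (0 : ℝ) < 2 := by norm_num
  rw [← Real.rpow_natCast 2 (4 * (j / 100)), ← Real.rpow_natCast 2 (3 * j / 4),
    ← Real.rpow_natCast 2 j, ← Real.rpow_natCast _ j, ← Real.rpow_mul h2.le, ← Real.rpow_add h2,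
    ← Real.rpow_add h2]
  apply Real.rpow_le_rpow_of_exponent_le (by norm_num)
  have h3 : ((j / 100 : ℕ) : ℝ) ≤ (j : ℝ) / 100 := by
    have := Nat.div_mul_le_self j 100
    have h4 : ((j / 100 : ℕ) : ℝ) * 100 ≤ j := by exact_mod_cast this
    linarith
  have h5 : ((3 * j / 4 : ℕ) : ℝ) ≤ (3 * j : ℝ) / 4 := by
    have := Nat.div_mul_le_self (3 * j) 4
    have h4 : ((3 * j / 4 : ℕ) : ℝ) * 4 ≤ 3 * j := by exact_mod_cast this
    linarith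
  push_cast
  linarith

lemma ev1 (A ε : ℝ) (hA : 0 ≤ A) (hε : 0 < ε) : ∀ᶠ j : ℕ in atTop,
    A * j * ((2 : ℝ) ^ (4 * (j / 100)) * (1 + 16 * 2 ^ (3 * j / 4) * (1 + 2 * (j : ℝ)) ^ 3)) ≤ ε * 2 ^ j := by
  set ρ : ℝ := (2 : ℝ) ^ (-(21 / 100) : ℝ) with hρ
  have hρ0 : 0 < ρ := by positivity
  have hρ1 : ρ < 1 := Real.rpow_lt_one_of_one_lt_of_neg (by norm_num) (by norm_num)
  have h1 := tendsto_pow_const_mul_const_pow_of_abs_lt_one 4 (r := ρ) (by rw [abs_of_pos hρ0]; exact hρ1)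
  have h2 : Tendsto (fun n : ℕ => (A * 500) * ((n : ℝ) ^ 4 * ρ ^ n)) atTop (nhds 0) := by
    simpa using h1.const_mul (A * 500)
  have h3 := h2.eventually (gt_mem_nhds hε)
  filter_upwards [h3, eventually_ge_atTop 1] with j hj hj1
  have hjr : (1 : ℝ) ≤ j := by exact_mod_cast hj1
  have h4 : 1 + 16 * 2 ^ (3 * j / 4) * (1 + 2 * (j : ℝ)) ^ 3 ≤ 2 ^ (3 * j / 4) * (500 * (j : ℝ) ^ 3) := by
    have h5 : (1 : ℝ) ≤ 2 ^ (3 * j / 4) := one_le_pow₀ (by norm_num)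
    have h6 : (1 + 2 * (j : ℝ)) ^ 3 ≤ (3 * j) ^ 3 := pow_le_pow_left₀ (by positivity) (by linarith) 3
    have h7 : (1 : ℝ) ≤ (j : ℝ) ^ 3 := one_le_pow₀ hjr
    have h8 : 1 + 16 * (1 + 2 * (j : ℝ)) ^ 3 ≤ 500 * (j : ℝ) ^ 3 := by nlinarith
    nlinarith
  calc A * j * ((2 : ℝ) ^ (4 * (j / 100)) * (1 + 16 * 2 ^ (3 * j / 4) * (1 + 2 * (j : ℝ)) ^ 3))
      ≤ A * j * ((2 : ℝ) ^ (4 * (j / 100)) * (2 ^ (3 * j / 4) * (500 * (j : ℝ) ^ 3))) := by gcongr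
    _ = (A * 500 * (j : ℝ) ^ 4) * (2 ^ (4 * (j / 100)) * 2 ^ (3 * j / 4)) := by ring
    _ ≤ (A * 500 * (j : ℝ) ^ 4) * (ρ ^ j * 2 ^ j) := by
      apply mul_le_mul_of_nonneg_left two_pow_le (by positivity)
    _ = (A * 500 * ((j : ℝ) ^ 4 * ρ ^ j)) * 2 ^ j := by ring
    _ ≤ ε * 2 ^ j := mul_le_mul_of_nonneg_right hj.le (by positivity)

lemma ev2 (A ε : ℝ) (hA : 0 ≤ A) (hε : 0 < ε) : ∀ᶠ j : ℕ in atTop, ∀ q : ℕ, 2 ^ j < q → q ≤ 2 * 2 ^ j →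
    A * (8 * Real.sqrt q * (1 + Real.log q)) * Real.log ((2 ^ (3 * j / 4) : ℕ) : ℝ)
      / ((2 ^ (3 * j / 4) : ℕ) : ℝ) ≤ ε := by
  set ρ : ℝ := (2 : ℝ) ^ (-(1 / 4) : ℝ) with hρ
  have hρ0 : 0 < ρ := by positivity
  have hρ1 : ρ < 1 := Real.rpow_lt_one_of_one_lt_of_neg (by norm_num) (by norm_num)
  have h1 := tendsto_pow_const_mul_const_pow_of_abs_lt_one 2 (r := ρ) (by rw [abs_of_pos hρ0]; exact hρ1)
  have h2 : Tendsto (fun n : ℕ => (A * 96) * ((n : ℝ) ^ 2 * ρ ^ n)) atTop (nhds 0) := by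
    simpa using h1.const_mul (A * 96)
  have h3 := h2.eventually (gt_mem_nhds hε)
  filter_upwards [h3, eventually_ge_atTop 1] with j hj hj1 q hq1 hq2
  have hjr : (1 : ℝ) ≤ j := by exact_mod_cast hj1
  have hlog2 : Real.log 2 ≤ 1 := by
    have := Real.log_two_lt_d9; linarith
  have hlog20 : 0 ≤ Real.log 2 := Real.log_nonneg (by norm_num)
  have hq0 : (0 : ℝ) < q := by
    have : 0 < q := lt_of_le_of_lt (Nat.zero_le _) hq1
    exact_mod_cast this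
  have hqle : (q : ℝ) ≤ 2 ^ (j + 1) := by
    have : (q : ℝ) ≤ ((2 * 2 ^ j : ℕ) : ℝ) := by exact_mod_cast hq2
    push_cast at this
    rw [pow_succ]; linarith
  have hlogq : 1 + Real.log q ≤ 3 * j := by
    have h4 : Real.log q ≤ Real.log (2 ^ (j + 1)) := Real.log_le_log hq0 hqle
    rw [Real.log_pow] at h4
    push_cast at h4
    have h5 : ((j : ℝ) + 1) * Real.log 2 ≤ ((j : ℝ) + 1) * 1 :=
      mul_le_mul_of_nonneg_left hlog2 (by positivity)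
    linarith
  have hlogq0 : 0 ≤ 1 + Real.log q := by
    have h6 : (1 : ℝ) ≤ q := by
      have : 1 ≤ q := by
        have : 0 < q := lt_of_le_of_lt (Nat.zero_le _) hq1
        omega
      exact_mod_cast this
    have := Real.log_nonneg h6
    linarith
  have hsq : Real.sqrt q ≤ 2 * (2 : ℝ) ^ ((j : ℝ) / 2) := by
    rw [Real.sqrt_le_left (by positivity)]
    refine hqle.trans ?_
    rw [mul_pow, ← Real.rpow_natCast ((2 : ℝ) ^ ((j : ℝ) / 2)) 2, ← Real.rpow_mul (by norm_num)]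
    rw [show ((j : ℝ) / 2) * ((2 : ℕ) : ℝ) = j by push_cast; ring, Real.rpow_natCast, pow_succ]
    have : (0 : ℝ) < 2 ^ j := by positivity
    linarith
  have hlogN : Real.log ((2 ^ (3 * j / 4) : ℕ) : ℝ) ≤ j := by
    push_cast
    rw [Real.log_pow]
    have h7 : ((3 * j / 4 : ℕ) : ℝ) ≤ j := by
      have : 3 * j / 4 ≤ j := by omega
      exact_mod_cast this
    calc _ ≤ (j : ℝ) * 1 := mul_le_mul h7 hlog2 hlog20 (by positivity)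
      _ = _ := mul_one _
  have hlogN0 : 0 ≤ Real.log ((2 ^ (3 * j / 4) : ℕ) : ℝ) := Real.log_natCast_nonneg _
  have hN : (2 : ℝ) ^ (3 * (j : ℝ) / 4) / 2 ≤ ((2 ^ (3 * j / 4) : ℕ) : ℝ) := by
    push_cast
    rw [← Real.rpow_natCast 2 (3 * j / 4)]
    have h8 : (2 : ℝ) ^ (3 * (j : ℝ) / 4) / 2 = (2 : ℝ) ^ (3 * (j : ℝ) / 4 - 1) := by
      rw [Real.rpow_sub (by norm_num), Real.rpow_one]
    rw [h8]
    apply Real.rpow_le_rpow_of_exponent_le (by norm_num)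
    have h9 : 3 * j < (3 * j / 4 + 1) * 4 := by omega
    have h10 : (3 * (j : ℝ)) < (((3 * j / 4 : ℕ) : ℝ) + 1) * 4 := by exact_mod_cast h9
    linarith
  have hNpos : (0 : ℝ) < (2 : ℝ) ^ (3 * (j : ℝ) / 4) / 2 := by positivity
  calc A * (8 * Real.sqrt q * (1 + Real.log q)) * Real.log ((2 ^ (3 * j / 4) : ℕ) : ℝ)
      / ((2 ^ (3 * j / 4) : ℕ) : ℝ)
      ≤ A * (8 * (2 * (2 : ℝ) ^ ((j : ℝ) / 2)) * (3 * j)) * j / ((2 : ℝ) ^ (3 * (j : ℝ) / 4) / 2) := by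
        gcongr
    _ = (A * 96 * (j : ℝ) ^ 2) * ((2 : ℝ) ^ ((j : ℝ) / 2) / (2 : ℝ) ^ (3 * (j : ℝ) / 4)) := by
        field_simp; ring
    _ = (A * 96) * ((j : ℝ) ^ 2 * ρ ^ j) := by
        have h11 : (2 : ℝ) ^ ((j : ℝ) / 2) / (2 : ℝ) ^ (3 * (j : ℝ) / 4) = ρ ^ j := by
          rw [hρ, ← Real.rpow_natCast _ j, ← Real.rpow_mul (by norm_num), ← Real.rpow_sub (by norm_num)]
          congr 1; ring
        rw [h11]; ring
    _ ≤ ε := hj.le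

end Pool.Agent.Helper73.EK
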