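import Mathlib

set_option autoImplicit false

namespace Pool.Agent.Helper73.EK

open Finset

/-- The Pólya–Vinogradov inequality for Jacobi symbols, as a hypothesis. -/
def PV : Prop := ∀ n : ℕ, Odd n → ¬ IsSquare n → ∀ (a : ℤ) (t : ℕ),
  |∑ i ∈ range t, (jacobiSym (a + i) n : ℝ)| ≤ 4 * Real.sqrt n * (1 + Real.log n)

/-- The integers in `(Q, 2Q]` in a residue class. -/
def cls (D b Q : ℕ) : Finset ℕ := (Ioc Q (2 * Q)).filter (fun m => m % D = b % D)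

lemma mem_cls {D b Q m : ℕ} : m ∈ cls D b Q ↔ (Q < m ∧ m ≤ 2 * Q) ∧ m % D = b % D := by
  simp [cls]

lemma coprime_of_mem_cls {D b Q m : ℕ} (hb : Nat.Coprime b D) (hm : m ∈ cls D b Q) :
    Nat.Coprime m D := by
  have h : m ≡ b [MOD D] := (mem_cls.1 hm).2
  have := h.gcd_eq
  rw [Nat.coprime_iff_gcd_eq_one] at *
  rw [this]; exact hb

/-- A residue class intersected with divisibility by `d`, in an interval, is an arithmetic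
progression. -/
lemma cls_filter_dvd {D b Q d : ℕ} (hD : 0 < D) (hb : Nat.Coprime b D) (hd : 0 < d) :
    (cls D b Q).filter (fun m => d ∣ m) = ∅ ∨
    (Nat.Coprime d D ∧ ∃ m₀ t : ℕ, (cls D b Q).filter (fun m => d ∣ m) =
      (range t).image (fun i => m₀ + (d * D) * i) ∧ d ∣ m₀) := by
  by_cases hne : ((cls D b Q).filter (fun m => d ∣ m)).Nonempty
  swap
  · left; exact not_nonempty_iff_eq_empty.1 hne
  right
  set S := (cls D b Q).filter (fun m => d ∣ m) with hS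
  have hmem : ∀ m, m ∈ S ↔ ((Q < m ∧ m ≤ 2 * Q) ∧ m % D = b % D) ∧ d ∣ m := by
    intro m; rw [hS, mem_filter, mem_cls]
  set m₀ := S.min' hne with hm₀
  have hm₀S : m₀ ∈ S := S.min'_mem hne
  obtain ⟨⟨⟨h1, h2⟩, h3⟩, h4⟩ := (hmem m₀).1 hm₀S
  have hcop : Nat.Coprime d D := by
    have h5 : Nat.Coprime m₀ D := coprime_of_mem_cls hb (mem_cls.2 ⟨⟨h1, h2⟩, h3⟩)
    exact Nat.Coprime.coprime_dvd_left h4 h5
  have hdD : 0 < d * D := Nat.mul_pos hd hD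
  refine ⟨hcop, m₀, (2 * Q - m₀) / (d * D) + 1, ?_, h4⟩
  ext m
  rw [hmem, mem_image]
  constructor
  · rintro ⟨⟨⟨a1, a2⟩, a3⟩, a4⟩
    have hle : m₀ ≤ m := S.min'_le m ((hmem m).2 ⟨⟨⟨a1, a2⟩, a3⟩, a4⟩)
    have hD1 : D ∣ m - m₀ := (Nat.modEq_iff_dvd' hle).1 (h3.trans a3.symm)
    have hd1 : d ∣ m - m₀ := Nat.dvd_sub a4 h4
    obtain ⟨i, hi⟩ := Nat.Coprime.mul_dvd_of_dvd_of_dvd hcop hd1 hD1
    refine ⟨i, ?_, ?_⟩
    · rw [mem_range, Nat.lt_succ_iff, Nat.le_div_iff_mul_le hdD, mul_comm, ← hi]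
      omega
    · rw [← hi]; omega
  · rintro ⟨i, hi, rfl⟩
    rw [mem_range, Nat.lt_succ_iff, Nat.le_div_iff_mul_le hdD, mul_comm] at hi
    refine ⟨⟨⟨by omega, by omega⟩, ?_⟩, ?_⟩
    · rw [← h3]
      rw [show d * D * i = D * (d * i) by ring]
      exact Nat.add_mul_mod_self_left _ _ _
    · exact Dvd.dvd.add h4 ⟨D * i, by ring⟩

lemma abs_jacobiSym_le (a : ℤ) (n : ℕ) : |(jacobiSym a n : ℝ)| ≤ 1 := by
  rcases jacobiSym.trichotomy a n with h | h | h <;> rw [h] <;> norm_num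

lemma jacobi_cls_sum (hPV : PV) {D b Q d n : ℕ} (hD : 0 < D) (hb : Nat.Coprime b D) (hd : 0 < d)
    (hodd : Odd n) (hns : ¬ IsSquare n) (hnD : Nat.Coprime n D) :
    |∑ m ∈ (cls D b Q).filter (fun m => d ∣ m), (jacobiSym (m : ℤ) n : ℝ)|
      ≤ 4 * Real.sqrt n * (1 + Real.log n) := by
  have hn1 : 1 < n := by
    rcases n with _ | _ | n
    · exact absurd ⟨0, rfl⟩ hns
    · exact absurd ⟨1, rfl⟩ hns
    · omega
  have hRHS : 0 ≤ 4 * Real.sqrt n * (1 + Real.log n) := by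
    have : 0 ≤ Real.log n := Real.log_nonneg (by exact_mod_cast hn1.le)
    positivity
  rcases cls_filter_dvd (Q := Q) hD hb hd with h | ⟨hcop, m₀, t, h, hdm⟩
  · rw [h]; simpa using hRHS
  rw [h]
  have hdD : 0 < d * D := Nat.mul_pos hd hD
  rw [sum_image (by
    intro i _ j _ hij
    have : (d * D) * i = (d * D) * j := by simpa using hij
    exact Nat.eq_of_mul_eq_mul_left hdD this)]
  by_cases hnd : Nat.Coprime n d
  · -- invertible step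
    have hcM : Nat.Coprime (d * D) n := by
      exact (Nat.Coprime.mul_right hnd hnD).symm
    obtain ⟨M', -, hM'⟩ := Nat.exists_mul_mod_eq_one_of_coprime hcM hn1
    have hcong : ∀ i : ℕ, jacobiSym (((m₀ + d * D * i : ℕ)) : ℤ) n
        = jacobiSym ((d * D : ℕ) : ℤ) n * jacobiSym (((M' * m₀ : ℕ) : ℤ) + i) n := by
      intro i
      rw [← jacobiSym.mul_left]
      apply jacobiSym.mod_left'
      have h1 : (((d * D) * M' : ℕ) : ℤ) ≡ 1 [ZMOD n] := by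
        have : (d * D) * M' ≡ 1 [MOD n] := by
          unfold Nat.ModEq; rw [hM', Nat.mod_eq_of_lt hn1]
        exact_mod_cast (Int.natCast_modEq_iff.2 this)
      have h2 : ((d * D : ℕ) : ℤ) * (((M' * m₀ : ℕ) : ℤ) + i)
          = (((d * D) * M' : ℕ) : ℤ) * m₀ + ((d * D : ℕ) : ℤ) * i := by
        push_cast; ring
      rw [h2]
      have h3 : (((d * D) * M' : ℕ) : ℤ) * m₀ + ((d * D : ℕ) : ℤ) * i
          ≡ 1 * m₀ + ((d * D : ℕ) : ℤ) * i [ZMOD n] := (h1.mul_right _).add_right _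
      have h4 : (((m₀ + d * D * i : ℕ)) : ℤ) = 1 * m₀ + ((d * D : ℕ) : ℤ) * i := by
        push_cast; ring
      rw [h4]
      exact h3.symm
    have e1 : ∑ i ∈ range t, (jacobiSym (((m₀ + d * D * i : ℕ)) : ℤ) n : ℝ)
        = (jacobiSym ((d * D : ℕ) : ℤ) n : ℝ)
          * ∑ i ∈ range t, (jacobiSym (((M' * m₀ : ℕ) : ℤ) + i) n : ℝ) := by
      rw [mul_sum]
      refine sum_congr rfl fun i _ => ?_
      rw [hcong i]; push_cast; ring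
    rw [e1, abs_mul]
    calc _ ≤ 1 * |∑ i ∈ range t, (jacobiSym (((M' * m₀ : ℕ) : ℤ) + i) n : ℝ)| :=
          mul_le_mul_of_nonneg_right (abs_jacobiSym_le _ _) (abs_nonneg _)
      _ ≤ _ := by rw [one_mul]; exact hPV n hodd hns _ t
  · have hz : ∀ i ∈ range t, (jacobiSym (((m₀ + d * D * i : ℕ)) : ℤ) n : ℝ) = 0 := by
      intro i _
      have : NeZero n := ⟨by omega⟩
      have h0 : jacobiSym (((m₀ + d * D * i : ℕ)) : ℤ) n = 0 := by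
        rw [jacobiSym.eq_zero_iff_not_coprime]
        intro hg
        apply hnd
        have h5 : d ∣ m₀ + d * D * i := Dvd.dvd.add hdm ⟨D * i, by ring⟩
        have h6 : Nat.Coprime (m₀ + d * D * i) n := by
          rw [Int.gcd_natCast_natCast] at hg; exact hg
        exact (Nat.Coprime.coprime_dvd_left h5 h6).symm
      rw [h0]; simp
    rw [sum_eq_zero hz]; simpa using hRHS

/-- Counting a residue class in a progression. -/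
lemma card_cls_filter {D b Q d : ℕ} (hD : 0 < D) (hd : 0 < d)
    (hcop : Nat.Coprime d D) :
    |(((cls D b Q).filter (fun m => d ∣ m)).card : ℝ) - (Q : ℝ) / (d * D)| ≤ 1 := by
  obtain ⟨c, hc1, hc2⟩ := Nat.chineseRemainder hcop 0 b
  have hdD : 0 < d * D := Nat.mul_pos hd hD
  have h1 : (cls D b Q).filter (fun m => d ∣ m)
      = (Ioc Q (2 * Q)).filter (fun m => m ≡ c [MOD (d * D)]) := by
    ext m
    simp only [cls, mem_filter, and_assoc]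
    refine and_congr_right fun _ => ?_
    constructor
    · rintro ⟨h2, h3⟩
      rw [← Nat.modEq_and_modEq_iff_modEq_mul hcop]
      exact ⟨((Nat.modEq_zero_iff_dvd.2 h3)).trans hc1.symm, Nat.ModEq.trans h2 hc2.symm⟩
    · intro h2
      rw [← Nat.modEq_and_modEq_iff_modEq_mul hcop] at h2
      exact ⟨h2.2.trans hc2, Nat.modEq_zero_iff_dvd.1 (h2.1.trans hc1)⟩
  rw [h1]
  have h2 := Nat.Ioc_filter_modEq_card Q (2 * Q) hdD c
  have hr : (0 : ℚ) < ((d * D : ℕ) : ℚ) := by exact_mod_cast hdD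
  set x : ℚ := (((2 * Q : ℕ) : ℚ) - (c : ℚ)) / ((d * D : ℕ) : ℚ) with hx
  set y : ℚ := ((Q : ℚ) - (c : ℚ)) / ((d * D : ℕ) : ℚ) with hy
  have hxy : x - y = (Q : ℚ) / ((d * D : ℕ) : ℚ) := by
    rw [hx, hy, ← sub_div]; congr 1; push_cast; ring
  have hxy0 : 0 ≤ x - y := by rw [hxy]; positivity
  have f1 := Int.floor_le x
  have f2 := Int.lt_floor_add_one x
  have f3 := Int.floor_le y
  have f4 := Int.lt_floor_add_one y
  have f5 : ⌊y⌋ ≤ ⌊x⌋ := Int.floor_le_floor (by linarith)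
  rw [max_eq_left (by linarith)] at h2
  have h3 : (((Ioc Q (2 * Q)).filter (fun m => m ≡ c [MOD (d * D)])).card : ℚ) = (⌊x⌋ : ℚ) - ⌊y⌋ := by
    have := congrArg (fun z : ℤ => (z : ℚ)) h2
    push_cast at this
    exact this
  have h4 : |(((Ioc Q (2 * Q)).filter (fun m => m ≡ c [MOD (d * D)])).card : ℚ)
      - (Q : ℚ) / ((d * D : ℕ) : ℚ)| ≤ 1 := by
    rw [h3, ← hxy, abs_le]
    constructor <;> linarith
  have h5 := (Rat.cast_le (K := ℝ)).2 h4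
  push_cast at h5
  exact h5

/-- Sieve weights. -/
structure Weights (D R : ℕ) (V : ℝ) (lam : ℕ → ℝ) : Prop where
  one : lam 1 = 1
  supp : ∀ d, lam d ≠ 0 → 1 ≤ d ∧ d ≤ R ∧ Nat.Coprime d D
  bd : ∀ d, |lam d| ≤ R
  quad : ∑ d₁ ∈ Icc 1 R, ∑ d₂ ∈ Icc 1 R, lam d₁ * lam d₂ / (Nat.lcm d₁ d₂ : ℝ) ≤ V

/-- The majorant `(∑_{d ∣ m} λ_d)²`. -/
noncomputable def wgt (R : ℕ) (lam : ℕ → ℝ) (m : ℕ) : ℝ :=
  (∑ d ∈ Icc 1 R, if d ∣ m then lam d else 0) ^ 2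

lemma wgt_nonneg (R : ℕ) (lam : ℕ → ℝ) (m : ℕ) : 0 ≤ wgt R lam m := sq_nonneg _

lemma wgt_expand (R : ℕ) (lam : ℕ → ℝ) (m : ℕ) :
    wgt R lam m = ∑ d₁ ∈ Icc 1 R, ∑ d₂ ∈ Icc 1 R,
      lam d₁ * lam d₂ * (if Nat.lcm d₁ d₂ ∣ m then 1 else 0) := by
  unfold wgt
  rw [sq, sum_mul_sum]
  refine sum_congr rfl fun d₁ _ => sum_congr rfl fun d₂ _ => ?_
  by_cases h1 : d₁ ∣ m <;> by_cases h2 : d₂ ∣ m <;> simp [h1, h2, Nat.lcm_dvd_iff]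

lemma sum_wgt_mul (D b Q R : ℕ) (lam : ℕ → ℝ) (f : ℕ → ℝ) :
    ∑ m ∈ cls D b Q, wgt R lam m * f m = ∑ d₁ ∈ Icc 1 R, ∑ d₂ ∈ Icc 1 R,
      lam d₁ * lam d₂ * ∑ m ∈ (cls D b Q).filter (fun m => Nat.lcm d₁ d₂ ∣ m), f m := by
  have h1 : ∀ m ∈ cls D b Q, wgt R lam m * f m = ∑ d₁ ∈ Icc 1 R, ∑ d₂ ∈ Icc 1 R,
      lam d₁ * lam d₂ * (if Nat.lcm d₁ d₂ ∣ m then f m else 0) := by
    intro m _
    rw [wgt_expand, sum_mul]
    refine sum_congr rfl fun d₁ _ => ?_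
    rw [sum_mul]
    refine sum_congr rfl fun d₂ _ => ?_
    split_ifs <;> ring
  rw [sum_congr rfl h1, sum_comm]
  refine sum_congr rfl fun d₁ _ => ?_
  rw [sum_comm]
  refine sum_congr rfl fun d₂ _ => ?_
  rw [← mul_sum, sum_filter]

lemma sum_abs_lam {D R : ℕ} {V : ℝ} {lam : ℕ → ℝ} (hw : Weights D R V lam) :
    ∑ d₁ ∈ Icc 1 R, ∑ d₂ ∈ Icc 1 R, |lam d₁ * lam d₂| ≤ (R : ℝ) ^ 4 := by
  have h1 : ∑ d ∈ Icc 1 R, |lam d| ≤ (R : ℝ) ^ 2 := by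
    calc ∑ d ∈ Icc 1 R, |lam d| ≤ ∑ d ∈ Icc 1 R, (R : ℝ) := sum_le_sum fun d _ => hw.bd d
      _ = (R : ℝ) ^ 2 := by rw [sum_const, Nat.card_Icc]; simp; ring
  have h2 : ∑ d₁ ∈ Icc 1 R, ∑ d₂ ∈ Icc 1 R, |lam d₁ * lam d₂|
      = (∑ d ∈ Icc 1 R, |lam d|) * ∑ d ∈ Icc 1 R, |lam d| := by
    rw [sum_mul_sum]
    exact sum_congr rfl fun _ _ => sum_congr rfl fun _ _ => abs_mul _ _
  rw [h2]
  have h3 : 0 ≤ ∑ d ∈ Icc 1 R, |lam d| := sum_nonneg fun _ _ => abs_nonneg _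
  calc _ ≤ (R : ℝ) ^ 2 * (R : ℝ) ^ 2 := mul_le_mul h1 h1 h3 (by positivity)
    _ = _ := by ring

lemma coprime_lcm_of_weights {D R : ℕ} {V : ℝ} {lam : ℕ → ℝ} (hw : Weights D R V lam)
    {d₁ d₂ : ℕ} (h : lam d₁ * lam d₂ ≠ 0) : Nat.Coprime (Nat.lcm d₁ d₂) D ∧ 0 < Nat.lcm d₁ d₂ := by
  have h1 := hw.supp d₁ (left_ne_zero_of_mul h)
  have h2 := hw.supp d₂ (right_ne_zero_of_mul h)
  exact ⟨Nat.Coprime.coprime_dvd_left (Nat.lcm_dvd_mul d₁ d₂) (h1.2.2.mul_left h2.2.2), Nat.lcm_pos (by omega) (by omega)⟩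

/-- Total mass of the majorant. -/
lemma sum_wgt_le {D b Q R : ℕ} {V : ℝ} {lam : ℕ → ℝ} (hD : 0 < D) (hw : Weights D R V lam) :
    ∑ m ∈ cls D b Q, wgt R lam m ≤ (Q : ℝ) / D * V + (R : ℝ) ^ 4 := by
  have h1 := sum_wgt_mul D b Q R lam (fun _ => 1)
  simp only [mul_one, sum_const, nsmul_eq_mul] at h1
  rw [h1]
  have h2 : ∀ d₁ ∈ Icc 1 R, ∀ d₂ ∈ Icc 1 R, lam d₁ * lam d₂ *
      (((cls D b Q).filter (fun m => Nat.lcm d₁ d₂ ∣ m)).card : ℝ)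
      ≤ (Q : ℝ) / D * (lam d₁ * lam d₂ / (Nat.lcm d₁ d₂ : ℝ)) + |lam d₁ * lam d₂| := by
    intro d₁ _ d₂ _
    by_cases h0 : lam d₁ * lam d₂ = 0
    · rw [h0]; simp
    obtain ⟨hc, hp⟩ := coprime_lcm_of_weights hw h0
    have h3 := card_cls_filter (b := b) (Q := Q) hD hp hc
    have hD' : (D : ℝ) ≠ 0 := by exact_mod_cast hD.ne'
    have hl' : (Nat.lcm d₁ d₂ : ℝ) ≠ 0 := by exact_mod_cast hp.ne'
    have h4 : lam d₁ * lam d₂ * (((cls D b Q).filter (fun m => Nat.lcm d₁ d₂ ∣ m)).card : ℝ)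
        = (Q : ℝ) / D * (lam d₁ * lam d₂ / (Nat.lcm d₁ d₂ : ℝ)) + lam d₁ * lam d₂ *
          ((((cls D b Q).filter (fun m => Nat.lcm d₁ d₂ ∣ m)).card : ℝ)
            - (Q : ℝ) / ((Nat.lcm d₁ d₂ : ℝ) * D)) := by
      field_simp
      ring
    rw [h4]
    have h5 : lam d₁ * lam d₂ * ((((cls D b Q).filter (fun m => Nat.lcm d₁ d₂ ∣ m)).card : ℝ)
            - (Q : ℝ) / ((Nat.lcm d₁ d₂ : ℝ) * D)) ≤ |lam d₁ * lam d₂| * 1 := by
      refine (le_abs_self _).trans ?_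
      rw [abs_mul]
      exact mul_le_mul_of_nonneg_left h3 (abs_nonneg _)
    linarith
  calc _ ≤ ∑ d₁ ∈ Icc 1 R, ∑ d₂ ∈ Icc 1 R,
        ((Q : ℝ) / D * (lam d₁ * lam d₂ / (Nat.lcm d₁ d₂ : ℝ)) + |lam d₁ * lam d₂|) :=
        sum_le_sum fun d₁ h₁ => sum_le_sum fun d₂ h₂ => h2 d₁ h₁ d₂ h₂
    _ = (Q : ℝ) / D * (∑ d₁ ∈ Icc 1 R, ∑ d₂ ∈ Icc 1 R, lam d₁ * lam d₂ / (Nat.lcm d₁ d₂ : ℝ))
        + ∑ d₁ ∈ Icc 1 R, ∑ d₂ ∈ Icc 1 R, |lam d₁ * lam d₂| := by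
      simp only [sum_add_distrib, mul_sum]
    _ ≤ _ := by
      apply add_le_add _ (sum_abs_lam hw)
      exact mul_le_mul_of_nonneg_left hw.quad (by positivity)

/-- Twisted sum of the majorant. -/
lemma sum_wgt_jacobi (hPV : PV) {D b Q R n : ℕ} {V : ℝ} {lam : ℕ → ℝ} (hD : 0 < D)
    (hb : Nat.Coprime b D) (hw : Weights D R V lam) (hodd : Odd n) (hns : ¬ IsSquare n)
    (hnD : Nat.Coprime n D) :
    |∑ m ∈ cls D b Q, wgt R lam m * (jacobiSym (m : ℤ) n : ℝ)|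
      ≤ (R : ℝ) ^ 4 * (4 * Real.sqrt n * (1 + Real.log n)) := by
  rw [sum_wgt_mul]
  have hn1 : 1 ≤ n := by
    rcases n with _ | n
    · exact absurd ⟨0, rfl⟩ hns
    · omega
  have hRHS : 0 ≤ 4 * Real.sqrt n * (1 + Real.log n) := by
    have : 0 ≤ Real.log n := Real.log_nonneg (by exact_mod_cast hn1)
    positivity
  have h2 : ∀ d₁ ∈ Icc 1 R, ∀ d₂ ∈ Icc 1 R, |lam d₁ * lam d₂ *
      ∑ m ∈ (cls D b Q).filter (fun m => Nat.lcm d₁ d₂ ∣ m), (jacobiSym (m : ℤ) n : ℝ)|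
      ≤ |lam d₁ * lam d₂| * (4 * Real.sqrt n * (1 + Real.log n)) := by
    intro d₁ h1 d₂ h2
    rw [abs_mul]
    apply mul_le_mul_of_nonneg_left _ (abs_nonneg _)
    rw [mem_Icc] at h1 h2
    exact jacobi_cls_sum hPV hD hb (Nat.lcm_pos (by omega) (by omega)) hodd hns hnD
  calc _ ≤ ∑ d₁ ∈ Icc 1 R, ∑ d₂ ∈ Icc 1 R, |lam d₁ * lam d₂ *
      ∑ m ∈ (cls D b Q).filter (fun m => Nat.lcm d₁ d₂ ∣ m), (jacobiSym (m : ℤ) n : ℝ)| :=
        (abs_sum_le_sum_abs _ _).trans (sum_le_sum fun _ _ => abs_sum_le_sum_abs _ _)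
    _ ≤ ∑ d₁ ∈ Icc 1 R, ∑ d₂ ∈ Icc 1 R, |lam d₁ * lam d₂| * (4 * Real.sqrt n * (1 + Real.log n)) :=
        sum_le_sum fun d₁ h₁ => sum_le_sum fun d₂ h₂ => h2 d₁ h₁ d₂ h₂
    _ = (∑ d₁ ∈ Icc 1 R, ∑ d₂ ∈ Icc 1 R, |lam d₁ * lam d₂|) * (4 * Real.sqrt n * (1 + Real.log n)) := by
      simp only [sum_mul]
    _ ≤ _ := mul_le_mul_of_nonneg_right (sum_abs_lam hw) hRHS

/-- The second moment bound. -/
theorem second_moment (hPV : PV) {D b Q R : ℕ} {V : ℝ} {lam : ℕ → ℝ} (hD : 0 < D)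
    (hb : Nat.Coprime b D) (hw : Weights D R V lam) (T : Finset ℕ) (a : ℕ → ℝ)
    (ha : ∀ n, 0 ≤ a n) (hT : ∀ n ∈ T, Odd n ∧ Nat.Coprime n D) :
    ∑ m ∈ cls D b Q, wgt R lam m * (∑ n ∈ T, a n * (jacobiSym (m : ℤ) n : ℝ)) ^ 2
      ≤ ((Q : ℝ) / D * V + (R : ℝ) ^ 4) *
          (∑ n₁ ∈ T, ∑ n₂ ∈ T, if IsSquare (n₁ * n₂) then a n₁ * a n₂ else 0)
        + (R : ℝ) ^ 4 * ∑ n₁ ∈ T, ∑ n₂ ∈ T, a n₁ * a n₂ *
            (4 * Real.sqrt ((n₁ * n₂ : ℕ)) * (1 + Real.log ((n₁ * n₂ : ℕ)))) := by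
  have hne : ∀ n ∈ T, n ≠ 0 := by
    intro n hn h0
    have := (hT n hn).1
    rw [h0] at this
    exact absurd this (by decide)
  have e1 : ∀ m ∈ cls D b Q, wgt R lam m * (∑ n ∈ T, a n * (jacobiSym (m : ℤ) n : ℝ)) ^ 2
      = ∑ n₁ ∈ T, ∑ n₂ ∈ T, a n₁ * a n₂ *
        (wgt R lam m * (jacobiSym (m : ℤ) (n₁ * n₂) : ℝ)) := by
    intro m _
    rw [sq, sum_mul_sum, mul_sum]
    refine sum_congr rfl fun n₁ h₁ => ?_
    rw [mul_sum]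
    refine sum_congr rfl fun n₂ h₂ => ?_
    rw [jacobiSym.mul_right' _ (hne n₁ h₁) (hne n₂ h₂)]
    push_cast
    ring
  rw [sum_congr rfl e1, sum_comm]
  have e2 : ∀ n₁ ∈ T, ∑ m ∈ cls D b Q, ∑ n₂ ∈ T, a n₁ * a n₂ *
        (wgt R lam m * (jacobiSym (m : ℤ) (n₁ * n₂) : ℝ))
      = ∑ n₂ ∈ T, a n₁ * a n₂ * ∑ m ∈ cls D b Q, wgt R lam m * (jacobiSym (m : ℤ) (n₁ * n₂) : ℝ) := by
    intro n₁ _
    rw [sum_comm]
    exact sum_congr rfl fun _ _ => (mul_sum _ _ _).symm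
  rw [sum_congr rfl e2, mul_sum, mul_sum, ← sum_add_distrib]
  refine sum_le_sum fun n₁ h₁ => ?_
  rw [mul_sum, mul_sum, ← sum_add_distrib]
  refine sum_le_sum fun n₂ h₂ => ?_
  have haa : 0 ≤ a n₁ * a n₂ := mul_nonneg (ha _) (ha _)
  have hprod1 : (1 : ℝ) ≤ ((n₁ * n₂ : ℕ) : ℝ) := by
    have h3 : 0 < n₁ * n₂ := Nat.mul_pos (Nat.pos_of_ne_zero (hne n₁ h₁)) (Nat.pos_of_ne_zero (hne n₂ h₂))
    exact_mod_cast h3
  have hlog : 0 ≤ Real.log ((n₁ * n₂ : ℕ) : ℝ) := Real.log_nonneg hprod1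
  have hpos2 : 0 ≤ 4 * Real.sqrt ((n₁ * n₂ : ℕ)) * (1 + Real.log ((n₁ * n₂ : ℕ))) := by positivity
  have hW0 : 0 ≤ (Q : ℝ) / D * V + (R : ℝ) ^ 4 :=
    (sum_nonneg fun m _ => wgt_nonneg R lam m).trans (sum_wgt_le (b := b) (Q := Q) hD hw)
  split_ifs with hsq
  · have h4 : ∑ m ∈ cls D b Q, wgt R lam m * (jacobiSym (m : ℤ) (n₁ * n₂) : ℝ)
        ≤ (Q : ℝ) / D * V + (R : ℝ) ^ 4 := by
      refine le_trans (sum_le_sum fun m _ => ?_) (sum_wgt_le hD hw)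
      have h5 := abs_jacobiSym_le (m : ℤ) (n₁ * n₂)
      have h6 := (abs_le.1 h5).2
      exact mul_le_of_le_one_right (wgt_nonneg _ _ _) h6
    have h7 := mul_le_mul_of_nonneg_left h4 haa
    have h8 : 0 ≤ (R : ℝ) ^ 4 * (a n₁ * a n₂ *
            (4 * Real.sqrt ((n₁ * n₂ : ℕ)) * (1 + Real.log ((n₁ * n₂ : ℕ))))) := by positivity
    linarith
  · have hoddp : Odd (n₁ * n₂) := (hT n₁ h₁).1.mul (hT n₂ h₂).1
    have hcop : Nat.Coprime (n₁ * n₂) D := (hT n₁ h₁).2.mul_left (hT n₂ h₂).2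
    have h4 := sum_wgt_jacobi hPV (Q := Q) hD hb hw hoddp hsq hcop
    have h5 := (le_abs_self _).trans h4
    have h7 := mul_le_mul_of_nonneg_left h5 haa
    rw [mul_zero, zero_add]
    calc _ ≤ _ := h7
      _ = _ := by ring

/-- For a prime `q > R` the majorant is `1`. -/
lemma wgt_prime {D R : ℕ} {V : ℝ} {lam : ℕ → ℝ} (hw : Weights D R V lam) {q : ℕ}
    (hq : q.Prime) (hqR : R < q) (hR : 1 ≤ R) : wgt R lam q = 1 := by
  unfold wgt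
  have h1 : ∑ d ∈ Icc 1 R, (if d ∣ q then lam d else 0) = lam 1 := by
    rw [sum_eq_single 1]
    · simp
    · intro d hd hd1
      rw [mem_Icc] at hd
      rw [if_neg]
      intro hdq
      rcases (Nat.dvd_prime hq).1 hdq with h | h
      · exact hd1 h
      · omega
    · intro h
      exact absurd (mem_Icc.2 ⟨le_rfl, hR⟩) h
  rw [h1, hw.one]; norm_num

/-- Second moment over primes. -/
theorem second_moment_primes (hPV : PV) {D b Q R : ℕ} {V : ℝ} {lam : ℕ → ℝ} (hD : 0 < D)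
    (hb : Nat.Coprime b D) (hw : Weights D R V lam) (hR : 1 ≤ R) (hRQ : R ≤ Q) (T : Finset ℕ)
    (a : ℕ → ℝ) (ha : ∀ n, 0 ≤ a n) (hT : ∀ n ∈ T, Odd n ∧ Nat.Coprime n D) :
    ∑ q ∈ (cls D b Q).filter Nat.Prime, (∑ n ∈ T, a n * (jacobiSym (q : ℤ) n : ℝ)) ^ 2
      ≤ ((Q : ℝ) / D * V + (R : ℝ) ^ 4) *
          (∑ n₁ ∈ T, ∑ n₂ ∈ T, if IsSquare (n₁ * n₂) then a n₁ * a n₂ else 0)
        + (R : ℝ) ^ 4 * ∑ n₁ ∈ T, ∑ n₂ ∈ T, a n₁ * a n₂ *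
            (4 * Real.sqrt ((n₁ * n₂ : ℕ)) * (1 + Real.log ((n₁ * n₂ : ℕ)))) := by
  refine le_trans ?_ (second_moment hPV (Q := Q) hD hb hw T a ha hT)
  have h1 : ∑ q ∈ (cls D b Q).filter Nat.Prime, (∑ n ∈ T, a n * (jacobiSym (q : ℤ) n : ℝ)) ^ 2
      = ∑ q ∈ (cls D b Q).filter Nat.Prime,
        wgt R lam q * (∑ n ∈ T, a n * (jacobiSym (q : ℤ) n : ℝ)) ^ 2 := by
    refine sum_congr rfl fun q hq => ?_
    rw [mem_filter, mem_cls] at hq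
    rw [wgt_prime hw hq.2 (by omega) hR, one_mul]
  rw [h1]
  exact sum_le_sum_of_subset_of_nonneg (filter_subset _ _)
    fun m _ _ => mul_nonneg (wgt_nonneg _ _ _) (sq_nonneg _)

end Pool.Agent.Helper73.EK
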