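import Mathlib
import Pool.Agent.Helper73.EK.Second
import Pool.Agent.Helper73.EK.Diag
import Pool.Agent.Helper73.EK.Ev

set_option autoImplicit false

namespace Pool.Agent.Helper73.EK

open Finset Filter

/-- Existence of Selberg weights, as a hypothesis. -/
def SelbergHyp : Prop := ∀ D : ℕ, 0 < D → ∀ R : ℕ, 2 ≤ R → ∃ lam : ℕ → ℝ,
  Weights D R (4 * (D : ℝ) / (D.totient * Real.log R)) lam

/-- Existence of dyadic intervals with many primes, as a hypothesis. -/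
def DyadicHyp : Prop := ∀ D : ℕ, 0 < D → ∀ b : ℕ, Nat.Coprime b D → ∀ J : ℕ, ∃ j ≥ J,
  (2 : ℝ) ^ j / (10 * D.totient * j) ≤
    (((Ioc (2 ^ j) (2 ^ (j + 1))).filter (fun p => p.Prime ∧ p % D = b % D)).card : ℝ)

lemma sum_inv_sqrt_le (N : ℕ) : ∑ n ∈ Ioc 0 N, 1 / Real.sqrt n ≤ 2 * Real.sqrt N := by
  induction N with
  | zero => simp
  | succ N ih =>
    rw [← Finset.insert_Ioc_right_eq_Ioc_add_one (Nat.zero_le N), sum_insert (by simp)]
    have h1 : 0 < Real.sqrt ((N + 1 : ℕ) : ℝ) := Real.sqrt_pos.2 (by positivity)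
    have h2 : Real.sqrt ((N + 1 : ℕ) : ℝ) ^ 2 = N + 1 := by
      rw [Real.sq_sqrt (by positivity)]; push_cast; ring
    have h3 : Real.sqrt N ^ 2 = N := Real.sq_sqrt (by positivity)
    have h4 := Real.sqrt_nonneg N
    have h5 : 1 / Real.sqrt ((N + 1 : ℕ) : ℝ) ≤ 2 * (Real.sqrt ((N + 1 : ℕ) : ℝ) - Real.sqrt N) := by
      rw [div_le_iff₀ h1]
      nlinarith [sq_nonneg (Real.sqrt ((N + 1 : ℕ) : ℝ) - Real.sqrt N)]
    linarith

/-- The coefficient `(1 + log n)/n`. -/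
noncomputable def cf (n : ℕ) : ℝ := (1 + Real.log n) / n

lemma cf_nonneg (n : ℕ) : 0 ≤ cf n := by
  unfold cf
  have := Real.log_natCast_nonneg n
  positivity

lemma off_bound (y N : ℕ) (hN : 1 ≤ N) :
    ∑ n₁ ∈ rough y N, ∑ n₂ ∈ rough y N, cf n₁ * cf n₂ *
      (4 * Real.sqrt ((n₁ * n₂ : ℕ)) * (1 + Real.log ((n₁ * n₂ : ℕ))))
      ≤ 16 * N * (1 + 2 * Real.log N) ^ 3 := by
  have hNr : (1 : ℝ) ≤ N := by exact_mod_cast hN
  have hlogN : 0 ≤ Real.log N := Real.log_nonneg hNr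
  have hterm : ∀ n₁ ∈ rough y N, ∀ n₂ ∈ rough y N, cf n₁ * cf n₂ *
      (4 * Real.sqrt ((n₁ * n₂ : ℕ)) * (1 + Real.log ((n₁ * n₂ : ℕ))))
      ≤ (4 * (1 + 2 * Real.log N) ^ 3) * ((1 / Real.sqrt n₁) * (1 / Real.sqrt n₂)) := by
    intro n₁ h₁ n₂ h₂
    have a1 := (mem_rough.1 h₁).1
    have a2 := (mem_rough.1 h₂).1
    have r1 : (0 : ℝ) < n₁ := by exact_mod_cast (show 0 < n₁ by omega)
    have r2 : (0 : ℝ) < n₂ := by exact_mod_cast (show 0 < n₂ by omega)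
    have l1 : Real.log n₁ ≤ Real.log N := Real.log_le_log r1 (by exact_mod_cast a1.2)
    have l2 : Real.log n₂ ≤ Real.log N := Real.log_le_log r2 (by exact_mod_cast a2.2)
    have l10 : 0 ≤ Real.log n₁ := Real.log_natCast_nonneg _
    have l20 : 0 ≤ Real.log n₂ := Real.log_natCast_nonneg _
    have s1 : 0 < Real.sqrt n₁ := Real.sqrt_pos.2 r1
    have s2 : 0 < Real.sqrt n₂ := Real.sqrt_pos.2 r2
    have e1 : Real.sqrt ((n₁ * n₂ : ℕ)) = Real.sqrt n₁ * Real.sqrt n₂ := by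
      push_cast; rw [Real.sqrt_mul r1.le]
    have e2 : Real.log ((n₁ * n₂ : ℕ)) = Real.log n₁ + Real.log n₂ := by
      push_cast; rw [Real.log_mul r1.ne' r2.ne']
    have e3 : (n₁ : ℝ) = Real.sqrt n₁ * Real.sqrt n₁ := (Real.mul_self_sqrt r1.le).symm
    have e4 : (n₂ : ℝ) = Real.sqrt n₂ * Real.sqrt n₂ := (Real.mul_self_sqrt r2.le).symm
    have e5 : cf n₁ * cf n₂ * (4 * Real.sqrt ((n₁ * n₂ : ℕ)) * (1 + Real.log ((n₁ * n₂ : ℕ))))
        = (4 * ((1 + Real.log n₁) * (1 + Real.log n₂) * (1 + (Real.log n₁ + Real.log n₂))))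
          * ((1 / Real.sqrt n₁) * (1 / Real.sqrt n₂)) := by
      rw [e1, e2]
      unfold cf
      have f1 : (1 + Real.log n₁) / (n₁ : ℝ) = (1 + Real.log n₁) / (Real.sqrt n₁ * Real.sqrt n₁) := by
        rw [← e3]
      have f2 : (1 + Real.log n₂) / (n₂ : ℝ) = (1 + Real.log n₂) / (Real.sqrt n₂ * Real.sqrt n₂) := by
        rw [← e4]
      rw [f1, f2]
      field_simp
    rw [e5]
    apply mul_le_mul_of_nonneg_right _ (by positivity)
    have hL : (1 + Real.log n₁) * (1 + Real.log n₂) * (1 + (Real.log n₁ + Real.log n₂))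
        ≤ (1 + 2 * Real.log N) * (1 + 2 * Real.log N) * (1 + 2 * Real.log N) := by
      gcongr <;> linarith
    calc _ ≤ 4 * ((1 + 2 * Real.log N) * (1 + 2 * Real.log N) * (1 + 2 * Real.log N)) := by linarith
      _ = _ := by ring
  have hS : ∑ n ∈ rough y N, 1 / Real.sqrt n ≤ 2 * Real.sqrt N := by
    refine le_trans (sum_le_sum_of_subset_of_nonneg ?_ ?_) (sum_inv_sqrt_le N)
    · intro n hn
      have := (mem_rough.1 hn).1
      rw [mem_Ioc]; omega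
    · intro n _ _; positivity
  have hS0 : 0 ≤ ∑ n ∈ rough y N, 1 / Real.sqrt n := sum_nonneg fun n _ => by positivity
  calc _ ≤ ∑ n₁ ∈ rough y N, ∑ n₂ ∈ rough y N,
        (4 * (1 + 2 * Real.log N) ^ 3) * ((1 / Real.sqrt n₁) * (1 / Real.sqrt n₂)) :=
        sum_le_sum fun n₁ h₁ => sum_le_sum fun n₂ h₂ => hterm n₁ h₁ n₂ h₂
    _ = (4 * (1 + 2 * Real.log N) ^ 3) * ((∑ n ∈ rough y N, 1 / Real.sqrt n) *
        (∑ n ∈ rough y N, 1 / Real.sqrt n)) := by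
      rw [sum_mul_sum, mul_sum]
      exact sum_congr rfl fun _ _ => (mul_sum _ _ _).symm
    _ ≤ (4 * (1 + 2 * Real.log N) ^ 3) * ((2 * Real.sqrt N) * (2 * Real.sqrt N)) := by
      apply mul_le_mul_of_nonneg_left _ (by positivity)
      exact mul_le_mul hS hS hS0 (by positivity)
    _ = 16 * (Real.sqrt N * Real.sqrt N) * (1 + 2 * Real.log N) ^ 3 := by ring
    _ = _ := by rw [Real.mul_self_sqrt (by positivity)]

/-- Monotonicity of the second moment bound in the coefficients. -/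
lemma bound_mono (T : Finset ℕ) (a : ℕ → ℝ) (ha : ∀ n, 0 ≤ a n) (hle : ∀ n, a n ≤ cf n)
    (F : ℕ → ℕ → ℝ) (hF : ∀ n₁ n₂, n₁ ∈ T → n₂ ∈ T → 0 ≤ F n₁ n₂) :
    ∑ n₁ ∈ T, ∑ n₂ ∈ T, a n₁ * a n₂ * F n₁ n₂ ≤ ∑ n₁ ∈ T, ∑ n₂ ∈ T, cf n₁ * cf n₂ * F n₁ n₂ := by
  refine sum_le_sum fun n₁ h₁ => sum_le_sum fun n₂ h₂ => ?_
  apply mul_le_mul_of_nonneg_right _ (hF n₁ n₂ h₁ h₂)
  exact mul_le_mul (hle _) (hle _) (ha _) (cf_nonneg _)

lemma odd_coprime_of_rough {y N n : ℕ} (hy : 2 ≤ y) (hn : n ∈ rough y N) :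
    Odd n ∧ Nat.Coprime n (4 * primorial y) := by
  have h := (mem_rough.1 hn).2
  have hodd : Odd n := by
    rw [← Nat.not_even_iff_odd]
    intro he
    have := h 2 Nat.prime_two he.two_dvd
    omega
  refine ⟨hodd, ?_⟩
  apply Nat.Coprime.mul_right
  · have : Nat.Coprime n (2 ^ 2) := Nat.Coprime.pow_right 2 (Nat.coprime_two_right.2 hodd)
    simpa using this
  · rw [Nat.coprime_iff_gcd_eq_one]
    by_contra hne
    obtain ⟨p, hp, hpd⟩ := Nat.exists_prime_and_dvd hne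
    have h1 := h p hp (hpd.trans (Nat.gcd_dvd_left _ _))
    have h2 : p ∣ primorial y := hpd.trans (Nat.gcd_dvd_right _ _)
    rw [primorial, hp.prime.dvd_finsetProd_iff] at h2
    obtain ⟨p', hp', hdvd⟩ := h2
    rw [mem_filter, mem_range] at hp'
    have := (Nat.prime_dvd_prime_iff_eq hp hp'.2).1 hdvd
    omega

/-- Selection of a prime with small rough sums. -/
theorem exists_good_prime (hPV : PV) (hSel : SelbergHyp) (hDy : DyadicHyp) (η : ℝ) (hη : 0 < η) :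
    ∃ y₀ : ℕ, ∀ y ≥ y₀, ∀ b : ℕ, Nat.Coprime b (4 * primorial y) → ∀ Q₀ : ℕ, ∃ q N : ℕ,
      q.Prime ∧ Q₀ ≤ q ∧ q % (4 * primorial y) = b % (4 * primorial y) ∧ 3 ≤ N ∧
      |∑ n ∈ rough y N, (jacobiSym (q : ℤ) n : ℝ) / n| ≤ η ∧
      |∑ n ∈ rough y N, (jacobiSym (q : ℤ) n : ℝ) * Real.log n / n| ≤ η ∧
      (primorial y : ℝ) * (8 * Real.sqrt q * (1 + Real.log q)) * Real.log N / N ≤ η := by
  obtain ⟨K, hK, hdiag⟩ := diag_bound
  -- choice of y₀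
  have hlim : Tendsto (fun y : ℕ => 2400 * K * (y : ℝ) ^ (-(1 / 4) : ℝ)) atTop (nhds 0) := by
    have h1 : Tendsto (fun y : ℕ => (y : ℝ) ^ (-(1 / 4) : ℝ)) atTop (nhds 0) :=
      (tendsto_rpow_neg_atTop (by norm_num)).comp tendsto_natCast_atTop_atTop
    simpa using h1.const_mul (2400 * K)
  have hev := hlim.eventually (gt_mem_nhds (show 0 < η ^ 2 / 40 by positivity))
  obtain ⟨y₁, hy₁⟩ := eventually_atTop.1 hev
  refine ⟨max y₁ 2, fun y hy b hb Q₀ => ?_⟩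
  have hyy : 2 ≤ y := le_trans (le_max_right _ _) hy
  have hy1 := hy₁ y (le_trans (le_max_left _ _) hy)
  set D := 4 * primorial y with hD
  have hprim : 0 < primorial y := primorial_pos y
  have hDpos : 0 < D := by positivity
  set φ : ℝ := (D.totient : ℝ) with hφ
  have hφ1 : 1 ≤ φ := by
    rw [hφ]; exact_mod_cast (Nat.totient_pos.2 hDpos)
  set κ : ℝ := K * (y : ℝ) ^ (-(1 / 4) : ℝ) with hκ
  have hκ0 : 0 ≤ κ := by positivity
  have hκ1 : 2400 * κ ≤ η ^ 2 / 40 := by rw [hκ, ← mul_assoc]; exact hy1.le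
  have hκK : κ ≤ K := by
    rw [hκ]
    apply mul_le_of_le_one_right hK.le
    apply Real.rpow_le_one_of_one_le_of_nonpos _ (by norm_num)
    exact_mod_cast (show 1 ≤ y by omega)
  -- choice of j
  have hev1 := ev1 (φ * (2 * (K + 1))) (η ^ 2 / 40) (by positivity) (by positivity)
  have hev2 := ev2 (primorial y : ℝ) η (by positivity) hη
  obtain ⟨J, hJ⟩ := eventually_atTop.1 (hev1.and (hev2.and (eventually_ge_atTop (max 200 Q₀))))
  obtain ⟨j, hjJ, hcard⟩ := hDy D hDpos b hb J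
  obtain ⟨h1, h2, h3⟩ := hJ j hjJ
  have hj200 : 200 ≤ j := le_trans (le_max_left _ _) h3
  have hjQ : Q₀ ≤ j := le_trans (le_max_right _ _) h3
  have hjr : (200 : ℝ) ≤ j := by exact_mod_cast hj200
  set Q : ℕ := 2 ^ j with hQ
  set R : ℕ := 2 ^ (j / 100) with hR
  set N : ℕ := 2 ^ (3 * j / 4) with hN
  have hR2 : 2 ≤ R := by
    have : 1 ≤ j / 100 := by omega
    calc 2 = 2 ^ 1 := by norm_num
      _ ≤ 2 ^ (j / 100) := Nat.pow_le_pow_right (by norm_num) this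
  have hRQ : R ≤ Q := Nat.pow_le_pow_right (by norm_num) (Nat.div_le_self _ _)
  have hN3 : 3 ≤ N := by
    have : 2 ≤ 3 * j / 4 := by omega
    calc 3 ≤ 2 ^ 2 := by norm_num
      _ ≤ 2 ^ (3 * j / 4) := Nat.pow_le_pow_right (by norm_num) this
  obtain ⟨lam, hlam⟩ := hSel D hDpos R hR2
  -- main sets
  set PP := (cls D b Q).filter Nat.Prime with hPP
  have hcardP : (2 : ℝ) ^ j / (10 * φ * j) ≤ (PP.card : ℝ) := by
    refine hcard.trans (le_of_eq ?_)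
    congr 2
    ext p
    rw [hPP, mem_filter, mem_filter, mem_cls, mem_Ioc, hQ, pow_succ]
    constructor
    · rintro ⟨⟨a1, a2⟩, a3, a4⟩
      exact ⟨⟨⟨a1, by omega⟩, a4⟩, a3⟩
    · rintro ⟨⟨⟨a1, a2⟩, a4⟩, a3⟩
      exact ⟨⟨a1, by omega⟩, a3, a4⟩
  by_contra hcon
  push Not at hcon
  -- the two sums
  have hT : ∀ n ∈ rough y N, Odd n ∧ Nat.Coprime n D := fun n hn => odd_coprime_of_rough hyy hn
  have ha1 : ∀ n : ℕ, (0 : ℝ) ≤ 1 / n := fun n => by positivity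
  have ha2 : ∀ n : ℕ, (0 : ℝ) ≤ Real.log n / n := fun n => by
    have := Real.log_natCast_nonneg n
    positivity
  have hle1 : ∀ n : ℕ, (1 : ℝ) / n ≤ cf n := fun n => by
    unfold cf
    have := Real.log_natCast_nonneg n
    gcongr; linarith
  have hle2 : ∀ n : ℕ, Real.log n / n ≤ cf n := fun n => by
    unfold cf
    gcongr; linarith
  have hbad : ∀ q ∈ PP, η ^ 2 ≤ (∑ n ∈ rough y N, (1 / (n : ℝ)) * (jacobiSym (q : ℤ) n : ℝ)) ^ 2
      + (∑ n ∈ rough y N, (Real.log n / n) * (jacobiSym (q : ℤ) n : ℝ)) ^ 2 := by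
    intro q hq
    rw [hPP, mem_filter, mem_cls] at hq
    obtain ⟨⟨⟨b1, b2⟩, b3⟩, b4⟩ := hq
    have hqQ₀ : Q₀ ≤ q := by
      have : j < 2 ^ j := Nat.lt_two_pow_self
      omega
    have e1 : ∑ n ∈ rough y N, (jacobiSym (q : ℤ) n : ℝ) / n
        = ∑ n ∈ rough y N, (1 / (n : ℝ)) * (jacobiSym (q : ℤ) n : ℝ) :=
      sum_congr rfl fun n _ => by ring
    have e2 : ∑ n ∈ rough y N, (jacobiSym (q : ℤ) n : ℝ) * Real.log n / n
        = ∑ n ∈ rough y N, (Real.log n / n) * (jacobiSym (q : ℤ) n : ℝ) :=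
      sum_congr rfl fun n _ => by ring
    have h4 := hcon q N b4 hqQ₀ b3 hN3
    rw [e1, e2] at h4
    have h5 := h2 q b1 b2
    rcases le_or_gt |∑ n ∈ rough y N, (1 / (n : ℝ)) * (jacobiSym (q : ℤ) n : ℝ)| η with h6 | h6
    · rcases le_or_gt |∑ n ∈ rough y N, (Real.log n / n) * (jacobiSym (q : ℤ) n : ℝ)| η with h7 | h7
      · exact absurd h5 (not_le.2 (h4 h6 h7))
      · have h8 : η ^ 2 ≤ (∑ n ∈ rough y N, (Real.log n / n) * (jacobiSym (q : ℤ) n : ℝ)) ^ 2 := by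
          rw [← sq_abs (∑ n ∈ rough y N, (Real.log n / n) * (jacobiSym (q : ℤ) n : ℝ))]
          exact pow_le_pow_left₀ hη.le h7.le 2
        have := sq_nonneg (∑ n ∈ rough y N, (1 / (n : ℝ)) * (jacobiSym (q : ℤ) n : ℝ))
        linarith
    · have h8 : η ^ 2 ≤ (∑ n ∈ rough y N, (1 / (n : ℝ)) * (jacobiSym (q : ℤ) n : ℝ)) ^ 2 := by
        rw [← sq_abs (∑ n ∈ rough y N, (1 / (n : ℝ)) * (jacobiSym (q : ℤ) n : ℝ))]
        exact pow_le_pow_left₀ hη.le h6.le 2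
      have := sq_nonneg (∑ n ∈ rough y N, (Real.log n / n) * (jacobiSym (q : ℤ) n : ℝ))
      linarith
  have hsumbad : η ^ 2 * (PP.card : ℝ) ≤
      ∑ q ∈ PP, (∑ n ∈ rough y N, (1 / (n : ℝ)) * (jacobiSym (q : ℤ) n : ℝ)) ^ 2
      + ∑ q ∈ PP, (∑ n ∈ rough y N, (Real.log n / n) * (jacobiSym (q : ℤ) n : ℝ)) ^ 2 := by
    rw [← sum_add_distrib]
    calc η ^ 2 * (PP.card : ℝ) = ∑ q ∈ PP, η ^ 2 := by rw [sum_const, nsmul_eq_mul, mul_comm]
      _ ≤ _ := sum_le_sum hbad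
  -- the second moment bound with uniform right-hand side
  set V : ℝ := 4 * (D : ℝ) / (D.totient * Real.log R) with hV
  have hW0 : 0 ≤ (Q : ℝ) / D * V + (R : ℝ) ^ 4 := by
    exact (sum_nonneg fun m _ => wgt_nonneg R lam m).trans (sum_wgt_le (b := b) (Q := Q) hDpos hlam)
  have hoff0 : ∀ n₁ n₂ : ℕ, n₁ ∈ rough y N → n₂ ∈ rough y N →
      0 ≤ 4 * Real.sqrt ((n₁ * n₂ : ℕ)) * (1 + Real.log ((n₁ * n₂ : ℕ))) := by
    intro n₁ n₂ _ _
    have := Real.log_natCast_nonneg (n₁ * n₂)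
    positivity
  have hgen : ∀ a : ℕ → ℝ, (∀ n, 0 ≤ a n) → (∀ n, a n ≤ cf n) →
      ∑ q ∈ PP, (∑ n ∈ rough y N, a n * (jacobiSym (q : ℤ) n : ℝ)) ^ 2
      ≤ ((Q : ℝ) / D * V + (R : ℝ) ^ 4) * κ + (R : ℝ) ^ 4 * (16 * N * (1 + 2 * Real.log N) ^ 3) := by
    intro a ha hle
    refine (second_moment_primes hPV hDpos hb hlam (by omega) hRQ (rough y N) a ha hT).trans ?_
    apply add_le_add
    · apply mul_le_mul_of_nonneg_left _ hW0
      refine le_trans ?_ (hdiag y N (by omega))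
      refine sum_le_sum fun n₁ h₁ => sum_le_sum fun n₂ h₂ => ?_
      split_ifs
      · exact mul_le_mul (hle _) (hle _) (ha _) (cf_nonneg _)
      · exact le_rfl
    · apply mul_le_mul_of_nonneg_left _ (by positivity)
      refine le_trans ?_ (off_bound y N (by omega))
      exact bound_mono (rough y N) a ha hle
        (fun n₁ n₂ => 4 * Real.sqrt ((n₁ * n₂ : ℕ)) * (1 + Real.log ((n₁ * n₂ : ℕ)))) hoff0
  have hA := hgen (fun n => 1 / (n : ℝ)) ha1 hle1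
  have hB := hgen (fun n => Real.log n / (n : ℝ)) ha2 hle2
  -- numerics
  have hlogR : (j : ℝ) / 300 ≤ Real.log R := by
    rw [hR]; push_cast
    rw [Real.log_pow]
    have h6 : (j : ℝ) / 200 ≤ ((j / 100 : ℕ) : ℝ) := by
      have h7 : j < (j / 100 + 1) * 100 := by omega
      have h8 : (j : ℝ) < (((j / 100 : ℕ) : ℝ) + 1) * 100 := by exact_mod_cast h7
      linarith
    have h9 : (2 / 3 : ℝ) ≤ Real.log 2 := by
      have := Real.log_two_gt_d9; linarith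
    calc (j : ℝ) / 300 = (j : ℝ) / 200 * (2 / 3) := by ring
      _ ≤ _ := mul_le_mul h6 h9 (by norm_num) (by positivity)
  have hlogR0 : 0 < Real.log R := lt_of_lt_of_le (by positivity) hlogR
  have hlogN : Real.log N ≤ j := by
    rw [hN]; push_cast
    rw [Real.log_pow]
    have h7 : ((3 * j / 4 : ℕ) : ℝ) ≤ j := by
      have : 3 * j / 4 ≤ j := by omega
      exact_mod_cast this
    have hlog2 : Real.log 2 ≤ 1 := by
      have := Real.log_two_lt_d9; linarith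
    have hlog20 : 0 ≤ Real.log 2 := Real.log_nonneg (by norm_num)
    calc _ ≤ (j : ℝ) * 1 := mul_le_mul h7 hlog2 hlog20 (by positivity)
      _ = _ := mul_one _
  have hlogN0 : 0 ≤ Real.log N := Real.log_natCast_nonneg _
  have hDr : (D : ℝ) ≠ 0 := by exact_mod_cast hDpos.ne'
  have hφ0 : 0 < φ := by linarith
  have hj0 : (0 : ℝ) < j := by linarith
  have hmain : (Q : ℝ) / D * V ≤ 1200 * 2 ^ j / (φ * j) := by
    have e1 : (Q : ℝ) / D * V = 4 * 2 ^ j / (φ * Real.log R) := by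
      rw [hV, hQ, ← hφ]; push_cast; field_simp
    rw [e1, div_le_div_iff₀ (by positivity) (by positivity)]
    have : j ≤ 300 * Real.log R := by linarith
    calc 4 * 2 ^ j * (φ * (j : ℝ)) ≤ 4 * 2 ^ j * (φ * (300 * Real.log R)) := by gcongr
      _ = _ := by ring
  have hR4 : (R : ℝ) ^ 4 = 2 ^ (4 * (j / 100)) := by
    rw [hR]; push_cast; rw [← pow_mul]; congr 1; ring
  have hNr : (N : ℝ) = 2 ^ (3 * j / 4) := by rw [hN]; push_cast; rfl
  have hOFF : (16 * N * (1 + 2 * Real.log N) ^ 3) ≤ 16 * 2 ^ (3 * j / 4) * (1 + 2 * (j : ℝ)) ^ 3 := by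
    rw [hNr] at hlogN0 hlogN ⊢
    gcongr
  have htot : η ^ 2 * (2 ^ j / (10 * φ * j)) ≤ 2 * (1200 * 2 ^ j / (φ * j) * κ)
      + 2 * ((R : ℝ) ^ 4 * κ + (R : ℝ) ^ 4 * (16 * 2 ^ (3 * j / 4) * (1 + 2 * (j : ℝ)) ^ 3)) := by
    have c1 : η ^ 2 * (2 ^ j / (10 * φ * j)) ≤ η ^ 2 * (PP.card : ℝ) :=
      mul_le_mul_of_nonneg_left hcardP (sq_nonneg _)
    have c2 : ((Q : ℝ) / D * V + (R : ℝ) ^ 4) * κ ≤ 1200 * 2 ^ j / (φ * j) * κ + (R : ℝ) ^ 4 * κ := by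
      rw [add_mul]
      have := mul_le_mul_of_nonneg_right hmain hκ0
      linarith
    have c3 : (R : ℝ) ^ 4 * (16 * N * (1 + 2 * Real.log N) ^ 3)
        ≤ (R : ℝ) ^ 4 * (16 * 2 ^ (3 * j / 4) * (1 + 2 * (j : ℝ)) ^ 3) :=
      mul_le_mul_of_nonneg_left hOFF (by positivity)
    linarith
  -- multiply by φ j / 2^j
  have hstep : η ^ 2 / 10 ≤ 2400 * κ + (φ * (2 * (K + 1))) * j * ((2 : ℝ) ^ (4 * (j / 100)) *
      (1 + 16 * 2 ^ (3 * j / 4) * (1 + 2 * (j : ℝ)) ^ 3)) / 2 ^ j := by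
    have hp : (0 : ℝ) < φ * j / 2 ^ j := by positivity
    have d1 := mul_le_mul_of_nonneg_right htot hp.le
    have e1 : η ^ 2 * (2 ^ j / (10 * φ * j)) * (φ * j / 2 ^ j) = η ^ 2 / 10 := by
      field_simp
    have e2 : (2 * (1200 * 2 ^ j / (φ * j) * κ)
      + 2 * ((R : ℝ) ^ 4 * κ + (R : ℝ) ^ 4 * (16 * 2 ^ (3 * j / 4) * (1 + 2 * (j : ℝ)) ^ 3)))
        * (φ * j / 2 ^ j) = 2400 * κ + (φ * (2 * (κ + 16 * 2 ^ (3 * j / 4) * (1 + 2 * (j : ℝ)) ^ 3)))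
        * j * (R : ℝ) ^ 4 / 2 ^ j := by
      field_simp
      ring
    rw [e1, e2] at d1
    refine d1.trans ?_
    rw [hR4]
    have e3 : (κ + 16 * 2 ^ (3 * j / 4) * (1 + 2 * (j : ℝ)) ^ 3)
        ≤ (K + 1) * (1 + 16 * 2 ^ (3 * j / 4) * (1 + 2 * (j : ℝ)) ^ 3) := by
      have : 0 ≤ 16 * (2 : ℝ) ^ (3 * j / 4) * (1 + 2 * (j : ℝ)) ^ 3 := by positivity
      nlinarith
    have e4 : φ * (2 * (κ + 16 * 2 ^ (3 * j / 4) * (1 + 2 * (j : ℝ)) ^ 3)) * j * 2 ^ (4 * (j / 100))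
        / 2 ^ j ≤ φ * (2 * ((K + 1) * (1 + 16 * 2 ^ (3 * j / 4) * (1 + 2 * (j : ℝ)) ^ 3))) * j
        * 2 ^ (4 * (j / 100)) / 2 ^ j := by gcongr
    have e5 : φ * (2 * ((K + 1) * (1 + 16 * 2 ^ (3 * j / 4) * (1 + 2 * (j : ℝ)) ^ 3))) * j
        * 2 ^ (4 * (j / 100)) / 2 ^ j = (φ * (2 * (K + 1))) * j * ((2 : ℝ) ^ (4 * (j / 100)) *
      (1 + 16 * 2 ^ (3 * j / 4) * (1 + 2 * (j : ℝ)) ^ 3)) / 2 ^ j := by ring
    linarith
  have hlast : (φ * (2 * (K + 1))) * j * ((2 : ℝ) ^ (4 * (j / 100)) *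
      (1 + 16 * 2 ^ (3 * j / 4) * (1 + 2 * (j : ℝ)) ^ 3)) / 2 ^ j ≤ η ^ 2 / 40 := by
    rw [div_le_iff₀ (by positivity)]; exact h1
  have hη2 : 0 < η ^ 2 := by positivity
  linarith

end Pool.Agent.Helper73.EK
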