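import Mathlib

set_option autoImplicit false

namespace Pool.Agent.Helper73.EK

open Finset Filter

/-- The contribution of a prime `p` with `χ(p) = e`. -/
noncomputable def cp (p : ℕ) (e : ℤ) : ℝ :=
  (e : ℝ) * Real.log p / (p - (e : ℝ)) + (if e = -1 then 2 * Real.log p / ((p : ℝ) ^ 2 - 1) else 0)

lemma cp_one (p : ℕ) : cp p 1 = Real.log p / (p - 1) := by
  unfold cp; norm_num

lemma cp_neg_one {p : ℕ} (hp : 2 ≤ p) : cp p (-1) = - (Real.log p * (p - 3) / ((p : ℝ) ^ 2 - 1)) := by
  unfold cp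
  have h : (2 : ℝ) ≤ p := by exact_mod_cast hp
  have h1 : (p : ℝ) + 1 ≠ 0 := by linarith
  have h2 : (p : ℝ) - 1 ≠ 0 := by linarith
  have h3 : (p : ℝ) ^ 2 - 1 = (p - 1) * (p + 1) := by ring
  rw [if_pos rfl, h3]
  push_cast
  field_simp
  ring

lemma log_div_small {θ : ℝ} (hθ : 0 < θ) : ∃ P : ℕ, 7 ≤ P ∧ ∀ p ≥ P, Real.log p / (p - 1) ≤ θ := by
  have h1 : Tendsto (fun n : ℕ => Real.log n / n) atTop (nhds 0) := by
    have := Real.isLittleO_log_id_atTop.tendsto_div_nhds_zero
    exact this.comp tendsto_natCast_atTop_atTop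
  have h2 := h1.eventually (gt_mem_nhds (show 0 < θ / 2 by positivity))
  obtain ⟨P, hP⟩ := eventually_atTop.1 h2
  refine ⟨max P 7, le_max_right _ _, fun p hp => ?_⟩
  have hp7 : 7 ≤ p := le_trans (le_max_right _ _) hp
  have h3 := hP p (le_trans (le_max_left _ _) hp)
  have hr : (7 : ℝ) ≤ p := by exact_mod_cast hp7
  have hlog : 0 ≤ Real.log p := Real.log_natCast_nonneg p
  rw [div_lt_iff₀ (by linarith)] at h3
  rw [div_le_iff₀ (by linarith)]
  nlinarith

lemma tendsto_sum_of_ge {f : ℕ → ℝ} {P : ℕ} (_ : 7 ≤ P)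
    (hf : ∀ p ≥ P, p.Prime → 1 / (2 * (p : ℝ)) ≤ f p) :
    Tendsto (fun y : ℕ => ∑ p ∈ (range (y + 1)).filter Nat.Prime, if P ≤ p then f p else 0)
      atTop atTop := by
  have h1 := not_summable_one_div_on_primes
  have h2 : ∀ n : ℕ, 0 ≤ Set.indicator {p : ℕ | p.Prime} (fun n : ℕ => (1 : ℝ) / n) n := fun n =>
    Set.indicator_nonneg (fun n _ => by positivity) n
  rw [not_summable_iff_tendsto_nat_atTop_of_nonneg h2] at h1
  have h3 : Tendsto (fun y : ℕ => ∑ n ∈ range (y + 1),
      Set.indicator {p : ℕ | p.Prime} (fun n : ℕ => (1 : ℝ) / n) n) atTop atTop :=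
    h1.comp (tendsto_add_atTop_nat 1)
  set C : ℝ := ∑ n ∈ range P, Set.indicator {p : ℕ | p.Prime} (fun n : ℕ => (1 : ℝ) / n) n with hC
  have h4 : Tendsto (fun y : ℕ => (1 / 2) * (∑ n ∈ range (y + 1),
      Set.indicator {p : ℕ | p.Prime} (fun n : ℕ => (1 : ℝ) / n) n - C)) atTop atTop := by
    apply Tendsto.const_mul_atTop (by norm_num)
    exact tendsto_atTop_add_const_right _ _ h3
  refine tendsto_atTop_mono' _ ?_ h4
  filter_upwards [eventually_ge_atTop P] with y hy
  have h5 : ∑ n ∈ range (y + 1), Set.indicator {p : ℕ | p.Prime} (fun n : ℕ => (1 : ℝ) / n) n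
      = C + ∑ n ∈ Ico P (y + 1), Set.indicator {p : ℕ | p.Prime} (fun n : ℕ => (1 : ℝ) / n) n := by
    rw [hC, sum_range_add_sum_Ico _ (by omega)]
  rw [h5, add_sub_cancel_left, mul_sum]
  have h6 : ∑ p ∈ (range (y + 1)).filter Nat.Prime, (if P ≤ p then f p else 0)
      = ∑ n ∈ Ico P (y + 1), (if n.Prime then f n else 0) := by
    rw [sum_filter, ← sum_filter_add_sum_filter_not (range (y + 1)) (fun n => P ≤ n)]
    have e1 : ∑ x ∈ (range (y + 1)).filter (fun n => ¬ P ≤ n),
        (if Nat.Prime x then (if P ≤ x then f x else 0) else 0) = 0 := by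
      apply sum_eq_zero
      intro x hx
      rw [mem_filter] at hx
      simp [hx.2]
    rw [e1, add_zero]
    apply sum_congr
    · ext n; simp only [mem_filter, mem_range, mem_Ico]; omega
    · intro n hn
      rw [mem_Ico] at hn
      simp [hn.1]
  rw [h6]
  apply sum_le_sum
  intro n hn
  rw [mem_Ico] at hn
  by_cases hp : n.Prime
  · rw [Set.indicator_of_mem (show n ∈ {p : ℕ | p.Prime} from hp), if_pos hp]
    have := hf n hn.1 hp
    have hn0 : (0 : ℝ) < n := by exact_mod_cast hp.pos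
    calc (1 / 2 : ℝ) * (1 / n) = 1 / (2 * n) := by field_simp
      _ ≤ _ := this
  · rw [Set.indicator_of_notMem (show n ∉ {p : ℕ | p.Prime} from hp), if_neg hp, mul_zero]

/-- Crossing a level with small steps. -/
lemma crossing {S : ℕ → ℝ} {Y : ℕ} {x θ : ℝ} (h0 : S Y ≤ x) (htop : ∃ y ≥ Y, x < S y)
    (hstep : ∀ y ≥ Y, S (y + 1) ≤ S y + θ) : ∃ y ≥ Y, |S y - x| ≤ θ := by
  classical
  obtain ⟨y, hyY, hy⟩ := htop
  have hex : ∃ n, Y ≤ n ∧ x < S n := ⟨y, hyY, hy⟩
  set m := Nat.find hex with hm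
  obtain ⟨hm1, hm2⟩ := Nat.find_spec hex
  have hmY : m ≠ Y := by
    intro h
    rw [← hm, h] at hm2
    exact absurd hm2 (not_lt.2 h0)
  obtain ⟨k, hk⟩ : ∃ k, m = k + 1 := ⟨m - 1, by omega⟩
  have hkY : Y ≤ k := by omega
  have hkS : S k ≤ x := by
    by_contra hcon
    push Not at hcon
    have := Nat.find_min' hex ⟨hkY, hcon⟩
    omega
  have h1 := hstep k hkY
  rw [← hk] at h1
  refine ⟨m, hm1, ?_⟩
  rw [abs_le]
  have h2 : x < S m := hm2
  constructor <;> linarith

/-- Choice of signs. -/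
theorem exists_signs (x : ℝ) {θ : ℝ} (hθ : 0 < θ) (y₀ : ℕ) : ∃ y ≥ y₀, ∃ e : ℕ → ℤ,
    (∀ p, e p = 1 ∨ e p = -1) ∧ |∑ p ∈ (range (y + 1)).filter Nat.Prime, cp p (e p) - x| ≤ θ := by
  obtain ⟨P, hP7, hPs⟩ := log_div_small hθ
  set Y : ℕ := max P y₀ with hY
  have hYP : P ≤ Y := le_max_left _ _
  have hYy : y₀ ≤ Y := le_max_right _ _
  -- sums with sign `1` up to `Y` and `e'` afterwards
  set e : ℤ → ℕ → ℤ := fun e' p => if p ≤ Y then 1 else e' with he
  set S : ℤ → ℕ → ℝ := fun e' y => ∑ p ∈ (range (y + 1)).filter Nat.Prime, cp p (e e' p) with hS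
  have hSsucc : ∀ e' y, S e' (y + 1) = S e' y + (if (y + 1).Prime then cp (y + 1) (e e' (y + 1)) else 0) := by
    intro e' y
    simp only [hS]
    rw [sum_filter, sum_range_succ, ← sum_filter]
  have hSY : S 1 Y = S (-1) Y := by
    simp only [hS]
    apply sum_congr rfl
    intro p hp
    rw [mem_filter, mem_range] at hp
    simp only [he]
    rw [if_pos (by omega), if_pos (by omega)]
  have hsplit : ∀ e' : ℤ, ∀ y ≥ Y, S e' y = S e' Y +
      ∑ p ∈ (range (y + 1)).filter Nat.Prime, (if Y + 1 ≤ p then cp p e' else 0) := by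
    intro e' y hy
    induction y, hy using Nat.le_induction with
    | base =>
      have : ∑ p ∈ (range (Y + 1)).filter Nat.Prime, (if Y + 1 ≤ p then cp p e' else 0) = 0 := by
        apply sum_eq_zero
        intro p hp
        rw [mem_filter, mem_range] at hp
        rw [if_neg (by omega)]
      rw [this, add_zero]
    | succ y hy ih =>
      rw [hSsucc, ih, sum_filter, sum_filter, sum_range_succ _ (y + 1)]
      have h1 : e e' (y + 1) = e' := by
        simp only [he]; rw [if_neg (by omega)]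
      rw [h1, if_pos (show Y + 1 ≤ y + 1 by omega)]
      ring
  have hbig : ∀ p ≥ Y + 1, p.Prime → 1 / (2 * (p : ℝ)) ≤ cp p 1 ∧ 1 / (2 * (p : ℝ)) ≤ - cp p (-1)
      ∧ cp p 1 ≤ θ ∧ - cp p (-1) ≤ θ := by
    intro p hp _
    have hp8 : 8 ≤ p := by omega
    have hpr : (8 : ℝ) ≤ p := by exact_mod_cast hp8
    have hlog1 : 1 ≤ Real.log p := by
      rw [Real.le_log_iff_exp_le (by linarith)]
      have := Real.exp_one_lt_d9
      linarith
    have hs := hPs p (by omega)
    rw [cp_one, cp_neg_one (by omega), neg_neg]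
    refine ⟨?_, ?_, hs, ?_⟩
    · rw [div_le_div_iff₀ (by linarith) (by linarith)]
      nlinarith
    · rw [div_le_div_iff₀ (by linarith) (by nlinarith)]
      have h5 : (p : ℝ) - 3 ≤ Real.log p * (p - 3) := by nlinarith
      have h6 : (p : ℝ) ^ 2 - 1 ≤ 2 * p * (p - 3) := by nlinarith
      nlinarith
    · refine le_trans ?_ hs
      rw [div_le_div_iff₀ (by nlinarith) (by linarith)]
      have h7 : (p - 3) * ((p : ℝ) - 1) ≤ (p : ℝ) ^ 2 - 1 := by nlinarith
      nlinarith
  rcases le_total (S 1 Y) x with h0 | h0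
  · -- increase
    have htop : ∃ y ≥ Y, x < S 1 y := by
      have ht := tendsto_sum_of_ge (f := fun p => cp p 1) (P := Y + 1) (by omega)
        (fun p hp hpp => (hbig p hp hpp).1)
      obtain ⟨y, hy1, hy2⟩ := ((ht.eventually (eventually_gt_atTop (x - S 1 Y))).and
        (eventually_ge_atTop Y)).exists
      refine ⟨y, hy2, ?_⟩
      rw [hsplit 1 y hy2]
      linarith
    obtain ⟨y, hy1, hy2⟩ := crossing (S := S 1) h0 htop (θ := θ) (fun y hy => by
      rw [hSsucc]
      have h1 : e 1 (y + 1) = 1 := by simp only [he]; split_ifs <;> rfl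
      rw [h1]
      split_ifs with hp
      · have := (hbig (y + 1) (by omega) hp).2.2.1
        linarith
      · linarith)
    refine ⟨y, by omega, e 1, fun p => ?_, hy2⟩
    simp only [he]
    split_ifs <;> simp
  · -- decrease
    have h0' : - S (-1) Y ≤ -x := by rw [← hSY]; linarith
    have htop : ∃ y ≥ Y, -x < - S (-1) y := by
      have ht := tendsto_sum_of_ge (f := fun p => - cp p (-1)) (P := Y + 1) (by omega)
        (fun p hp hpp => (hbig p hp hpp).2.1)
      obtain ⟨y, hy1, hy2⟩ := ((ht.eventually (eventually_gt_atTop (-x + S (-1) Y))).and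
        (eventually_ge_atTop Y)).exists
      refine ⟨y, hy2, ?_⟩
      rw [hsplit (-1) y hy2]
      have h2 : ∑ p ∈ (range (y + 1)).filter Nat.Prime, (if Y + 1 ≤ p then - cp p (-1) else 0)
          = - ∑ p ∈ (range (y + 1)).filter Nat.Prime, (if Y + 1 ≤ p then cp p (-1) else 0) := by
        rw [← sum_neg_distrib]
        exact sum_congr rfl fun p _ => by split_ifs <;> simp
      rw [h2] at hy1
      linarith
    obtain ⟨y, hy1, hy2⟩ := crossing (S := fun y => - S (-1) y) h0' htop (θ := θ) (fun y hy => by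
      show - S (-1) (y + 1) ≤ - S (-1) y + θ
      rw [hSsucc]
      have h1 : e (-1) (y + 1) = -1 := by simp only [he]; rw [if_neg (by omega)]
      rw [h1]
      split_ifs with hp
      · have := (hbig (y + 1) (by omega) hp).2.2.2
        linarith
      · linarith)
    refine ⟨y, by omega, e (-1), fun p => ?_, ?_⟩
    · simp only [he]
      split_ifs <;> simp
    · have h3 : |S (-1) y - x| = |- S (-1) y - -x| := by
        rw [← abs_neg]; congr 1; ring
      have h4 : |S (-1) y - x| ≤ θ := by rw [h3]; exact hy2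
      exact h4

end Pool.Agent.Helper73.EK
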